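import Pool.Agent.H16.CQ.CountRed
import Pool.Agent.H56.AF.Cnf

/-!
helper16 (project MP_28250c_CQ): the cells of the reduction from the Tseitin equations mod `q` to the counting principle mod `r`,
`r ∣ q`. Every `Z/r`-valued variable `ν` has a plus and a minus side, each with `r` points; `s = val ν` crossing points on the plus
side and `r - s` on the minus side (none for `s = 0`) form one cell, the other points belong to the cell of the place (equation) of
the side.
-/

set_option autoImplicit false
open Finset

namespace ACpFrege

open ACpB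

/-- The places: equations in which the variables occur. -/
inductive Place (M : ℕ)
  | node (v t : Fin M)
  | edge (u v : Fin M)
  | start (v : Fin M)
  | stop (v : Fin M)
  deriving DecidableEq

/-- The place of a side of a variable. -/
def plc {M : ℕ} : Vr M → Bool → Place M
  | .inl (u, v), true => .node u v
  | .inl (u, v), false => .edge (min u v) (max u v)
  | .inr (v, t), true => Fin.lastCases (.stop v) (fun i => .node v i) t
  | .inr (v, t), false => Fin.cases (.start v) (fun i => .node v i) t

/-- The variables on which the cell of a place depends. -/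
def pvr {M : ℕ} : Place M → Finset (Vr M)
  | .node v t => {.inr (v, t.castSucc), .inl (v, t), .inr (v, t.succ)}
  | .edge u v => {.inl (u, v), .inl (v, u), .inr (u, 0)}
  | .start v => {.inr (v, 0)}
  | .stop v => {.inr (v, Fin.last M)}

theorem pvr_card {M : ℕ} (k : Place M) : (pvr k).card ≤ 3 := by
  cases k <;> simp only [pvr]
  · exact Finset.card_le_three
  · exact Finset.card_le_three
  · simp
  · simp

theorem mem_pvr {M : ℕ} (ν : Vr M) (b : Bool) : ν ∈ pvr (plc ν b) := by
  rcases ν with ⟨u, v⟩ | ⟨v, t⟩
  · cases b
    · simp only [plc, pvr, Finset.mem_insert, Finset.mem_singleton, Sum.inl.injEq, Prod.mk.injEq, reduceCtorEq, or_false]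
      rcases le_total u v with h | h
      · left; rw [min_eq_left h, max_eq_right h]; exact ⟨rfl, rfl⟩
      · right; rw [min_eq_right h, max_eq_left h]; exact ⟨rfl, rfl⟩
    · simp [plc, pvr]
  · cases b
    · refine Fin.cases ?_ (fun i => ?_) t
      · simp [plc, pvr]
      · simp [plc, pvr]
    · refine Fin.lastCases ?_ (fun i => ?_) t
      · simp [plc, pvr]
      · simp [plc, pvr]

/-- Crossing points. -/
def crs {r : ℕ} (b : Bool) (s : ZMod r) (t : Fin r) : Bool :=
  if b then decide (t.val < s.val) else decide (s.val ≠ 0 ∧ t.val + s.val < r)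

/-- The points. -/
abbrev PB (M r c k : ℕ) := (Fin c × Option (Vr M × Bool × Fin r)) ⊕ (Fin k × Fin r)

/-- The cells. -/
abbrev LB (M c k : ℕ) := (Fin c × (Place M ⊕ Vr M)) ⊕ Fin k

instance (M c k : ℕ) : DecidableEq (LB M c k) := fun a b => inferInstance

/-- The cell of a point, for given values of the variables. -/
def cellB {M r c k : ℕ} [NeZero M] (val : Vr M → ZMod r) : PB M r c k → LB M c k
  | .inl (a, none) => .inl (a, .inl (.stop 0))
  | .inl (a, some (ν, b, t)) => .inl (a, if crs b (val ν) t then .inr ν else .inl (plc ν b))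
  | .inr (j, _) => .inr j

/-- The variables on which the class of a point depends. -/
def dvr {M r c k : ℕ} [NeZero M] : PB M r c k → Finset (Vr M)
  | .inl (_, none) => pvr (.stop 0)
  | .inl (_, some (ν, b, _)) => pvr (plc ν b)
  | .inr _ => ∅

theorem dvr_card {M r c k : ℕ} [NeZero M] (z : PB M r c k) : (dvr z).card ≤ 3 := by
  rcases z with ⟨a, _ | ⟨ν, b, t⟩⟩ | ⟨j, t⟩
  · exact pvr_card _
  · exact pvr_card _
  · simp [dvr]

/-- The class of a point depends only on few values. -/
theorem cellB_congr {M r c k : ℕ} [NeZero M] {val val' : Vr M → ZMod r} (z : PB M r c k) (h : ∀ ν ∈ dvr z, val ν = val' ν)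
    (z' : PB M r c k) : cellB val z' = cellB val z ↔ cellB val' z' = cellB val' z := by
  -- the cell of the other point agrees if it is the cell of a place `P` with the variables where the values agree
  have key : ∀ (P : Place M), (∀ ν ∈ pvr P, val ν = val' ν) → ∀ (a : Fin c) (y : PB M r c k),
      (cellB val y = .inl (a, .inl P) ↔ cellB val' y = .inl (a, .inl P)) := by
    intro P hP a y
    rcases y with ⟨a', _ | ⟨ν, b, t⟩⟩ | ⟨j, t⟩
    · exact Iff.rfl
    · simp only [cellB, Sum.inl.injEq, Prod.mk.injEq]
      refine and_congr_right fun _ => ?_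
      by_cases hpl : plc ν b = P
      · have : val ν = val' ν := hP ν (by rw [← hpl]; exact mem_pvr ν b)
        rw [this]
      · constructor
        · intro h1
          split_ifs at h1
          exact absurd (Sum.inl.inj h1) hpl
        · intro h1
          split_ifs at h1
          exact absurd (Sum.inl.inj h1) hpl
    · simp [cellB]
  rcases z with ⟨a, _ | ⟨ν, b, t⟩⟩ | ⟨j, t⟩
  · exact key _ h a z'
  · have hν : val ν = val' ν := h ν (mem_pvr ν b)
    have e1 : cellB val (.inl (a, some (ν, b, t)) : PB M r c k) = .inl (a, if crs b (val ν) t then .inr ν else .inl (plc ν b)) := rfl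
    have e2 : cellB val' (.inl (a, some (ν, b, t)) : PB M r c k) = .inl (a, if crs b (val' ν) t then .inr ν else .inl (plc ν b)) := rfl
    rw [e1, e2, ← hν]
    by_cases hc : crs b (val ν) t = true
    · rw [if_pos hc]
      rcases z' with ⟨a', _ | ⟨ν', b', t'⟩⟩ | ⟨j, t'⟩
      · simp [cellB]
      · simp only [cellB, Sum.inl.injEq, Prod.mk.injEq]
        refine and_congr_right fun _ => ?_
        by_cases hνν : ν' = ν
        · rw [hνν, ← hν]
        · constructor
          · intro h1
            split_ifs at h1
            exact absurd (Sum.inr.inj h1) hνν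
          · intro h1
            split_ifs at h1
            exact absurd (Sum.inr.inj h1) hνν
      · simp [cellB]
    · rw [if_neg hc]
      exact key _ h a z'
  · rcases z' with ⟨a', _ | ⟨ν', b', t'⟩⟩ | ⟨j', t'⟩ <;> simp [cellB]

section count

variable {M r c k : ℕ} [NeZero M] [NeZero r]

theorem sum_crs_true (s : ZMod r) : ∑ t : Fin r, (if crs true s t then (1 : ZMod r) else 0) = s := by
  have h1 : ∀ t : Fin r, (if crs true s t then (1 : ZMod r) else 0) = if t.val < s.val then 1 else 0 := by
    intro t
    simp [crs]
  rw [Finset.sum_congr rfl fun t _ => h1 t, Fin.sum_univ_eq_sum_range (fun t => if t < s.val then (1 : ZMod r) else 0) r,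
    ← Finset.sum_filter]
  have h2 : (Finset.range r).filter (fun t => t < s.val) = Finset.range s.val := by
    ext t
    simp only [Finset.mem_filter, Finset.mem_range]
    have := ZMod.val_lt s
    constructor
    · exact fun h => h.2
    · exact fun h => ⟨by omega, h⟩
  rw [h2, Finset.sum_const, Finset.card_range, nsmul_eq_mul, mul_one, ZMod.natCast_zmod_val]

theorem sum_crs_false (s : ZMod r) : ∑ t : Fin r, (if crs false s t then (1 : ZMod r) else 0) = -s := by
  by_cases hs : s.val = 0
  · have hs0 : s = 0 := (ZMod.val_eq_zero s).1 hs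
    have h1 : ∀ t : Fin r, (if crs false s t then (1 : ZMod r) else 0) = 0 := by
      intro t
      simp [crs, hs]
    rw [Finset.sum_congr rfl fun t _ => h1 t, Finset.sum_const_zero, hs0, neg_zero]
  · have h1 : ∀ t : Fin r, (if crs false s t then (1 : ZMod r) else 0) = if t.val < r - s.val then 1 else 0 := by
      intro t
      have h2 : (t.val + s.val < r) ↔ t.val < r - s.val := by omega
      simp [crs, hs, h2]
    rw [Finset.sum_congr rfl fun t _ => h1 t, Fin.sum_univ_eq_sum_range (fun t => if t < r - s.val then (1 : ZMod r) else 0) r,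
      ← Finset.sum_filter]
    have h2 : (Finset.range r).filter (fun t => t < r - s.val) = Finset.range (r - s.val) := by
      ext t
      simp only [Finset.mem_filter, Finset.mem_range]
      constructor
      · exact fun h => h.2
      · exact fun h => ⟨by omega, h⟩
    have h3 : s.val ≤ r := (ZMod.val_lt s).le
    rw [h2, Finset.sum_const, Finset.card_range, nsmul_eq_mul, mul_one, Nat.cast_sub h3, ZMod.natCast_zmod_val, ZMod.natCast_self,
      zero_sub]

theorem cnt_fix (val : Vr M → ZMod r) (j : Fin k) :
    ∑ z : PB M r c k, (if cellB val z = .inr j then (1 : ZMod r) else 0) = 0 := by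
  rw [Fintype.sum_sum_type, Fintype.sum_prod_type, Fintype.sum_prod_type]
  have h1 : ∀ (a : Fin c) (o : Option (Vr M × Bool × Fin r)),
      (if cellB val (.inl (a, o) : PB M r c k) = .inr j then (1 : ZMod r) else 0) = 0 := by
    intro a o
    rcases o with _ | ⟨ν, b, t⟩ <;> simp [cellB]
  simp only [h1, Finset.sum_const_zero, zero_add]
  have h2 : ∀ (j' : Fin k) (t : Fin r), (if cellB val (.inr (j', t) : PB M r c k) = .inr j then (1 : ZMod r) else 0) =
      if j' = j then 1 else 0 := by
    intro j' t
    simp [cellB]
  simp only [h2, Finset.sum_const, Finset.card_univ, Fintype.card_fin, nsmul_eq_mul, ZMod.natCast_self, zero_mul, mul_zero]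

theorem cnt_cross (val : Vr M → ZMod r) (a : Fin c) (ν : Vr M) :
    ∑ z : PB M r c k, (if cellB val z = .inl (a, .inr ν) then (1 : ZMod r) else 0) = 0 := by
  rw [Fintype.sum_sum_type, Fintype.sum_prod_type, Fintype.sum_prod_type]
  have h2 : ∀ (j' : Fin k) (t : Fin r), (if cellB val (.inr (j', t) : PB M r c k) = .inl (a, .inr ν) then (1 : ZMod r) else 0) = 0 := by
    intro j' t
    simp [cellB]
  simp only [h2, Finset.sum_const_zero, add_zero]
  have h1 : ∀ (a' : Fin c), ∑ o : Option (Vr M × Bool × Fin r),
      (if cellB val (.inl (a', o) : PB M r c k) = .inl (a, .inr ν) then (1 : ZMod r) else 0) = 0 := by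
    intro a'
    rw [Fintype.sum_option]
    have h3 : (if cellB val (.inl (a', none) : PB M r c k) = .inl (a, .inr ν) then (1 : ZMod r) else 0) = 0 := by
      simp [cellB]
    rw [h3, zero_add, Fintype.sum_prod_type]
    refine Finset.sum_eq_zero fun ν' _ => ?_
    rw [Fintype.sum_prod_type, Fintype.sum_bool]
    by_cases h4 : a' = a ∧ ν' = ν
    · have h5 : ∀ (b : Bool) (t : Fin r), (if cellB val (.inl (a', some (ν', b, t)) : PB M r c k) = .inl (a, .inr ν) then
          (1 : ZMod r) else 0) = if crs b (val ν') t then 1 else 0 := by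
        intro b t
        simp only [cellB, Sum.inl.injEq, Prod.mk.injEq, h4.1, h4.2, true_and]
        by_cases h6 : crs b (val ν) t = true <;> simp [h6]
      simp only [h5]
      rw [sum_crs_true, sum_crs_false, add_neg_cancel]
    · have h5 : ∀ (b : Bool) (t : Fin r), (if cellB val (.inl (a', some (ν', b, t)) : PB M r c k) = .inl (a, .inr ν) then
          (1 : ZMod r) else 0) = 0 := by
        intro b t
        rw [if_neg]
        simp only [cellB, Sum.inl.injEq, Prod.mk.injEq]
        rintro ⟨h6, h7⟩
        split_ifs at h7
        exact h4 ⟨h6, Sum.inr.inj h7⟩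
      simp only [h5, Finset.sum_const_zero, add_zero]
  rw [Finset.sum_congr rfl fun a' _ => h1 a', Finset.sum_const_zero]

theorem cnt_place (val : Vr M → ZMod r) (a : Fin c) (P : Place M) :
    ∑ z : PB M r c k, (if cellB val z = .inl (a, .inl P) then (1 : ZMod r) else 0) =
      (if Place.stop 0 = P then 1 else 0) - (∑ ν : Vr M, if plc ν true = P then val ν else 0) +
        ∑ ν : Vr M, if plc ν false = P then val ν else 0 := by
  rw [Fintype.sum_sum_type, Fintype.sum_prod_type, Fintype.sum_prod_type]
  have h2 : ∀ (j' : Fin k) (t : Fin r), (if cellB val (.inr (j', t) : PB M r c k) = .inl (a, .inl P) then (1 : ZMod r) else 0) = 0 := by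
    intro j' t
    simp [cellB]
  simp only [h2, Finset.sum_const_zero, add_zero]
  have h1 : ∀ (a' : Fin c), ∑ o : Option (Vr M × Bool × Fin r),
      (if cellB val (.inl (a', o) : PB M r c k) = .inl (a, .inl P) then (1 : ZMod r) else 0) =
      if a' = a then ((if Place.stop 0 = P then 1 else 0) - (∑ ν : Vr M, if plc ν true = P then val ν else 0) +
        ∑ ν : Vr M, if plc ν false = P then val ν else 0) else 0 := by
    intro a'
    rw [Fintype.sum_option]
    by_cases h0 : a' = a
    · rw [if_pos h0]
      have h3 : (if cellB val (.inl (a', none) : PB M r c k) = .inl (a, .inl P) then (1 : ZMod r) else 0) =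
          if Place.stop 0 = P then 1 else 0 := by
        simp [cellB, h0]
      rw [h3, Fintype.sum_prod_type, sub_add, sub_eq_add_neg]
      congr 1
      rw [neg_sub, ← Finset.sum_sub_distrib]
      refine Finset.sum_congr rfl fun ν _ => ?_
      rw [Fintype.sum_prod_type, Fintype.sum_bool]
      have h5 : ∀ (b : Bool) (t : Fin r), (if cellB val (.inl (a', some (ν, b, t)) : PB M r c k) = .inl (a, .inl P) then
          (1 : ZMod r) else 0) = if plc ν b = P then 1 - (if crs b (val ν) t then 1 else 0) else 0 := by
        intro b t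
        simp only [cellB, Sum.inl.injEq, Prod.mk.injEq, h0, true_and]
        by_cases h6 : crs b (val ν) t = true
        · simp [h6]
        · by_cases h7 : plc ν b = P <;> simp [h6, h7]
      have h8 : ∀ (b : Bool), ∑ t : Fin r, (if cellB val (.inl (a', some (ν, b, t)) : PB M r c k) = .inl (a, .inl P) then
          (1 : ZMod r) else 0) = if plc ν b = P then -(∑ t : Fin r, if crs b (val ν) t then 1 else 0) else 0 := by
        intro b
        simp only [h5]
        by_cases h7 : plc ν b = P
        · simp only [h7, if_true]
          rw [Finset.sum_sub_distrib, Finset.sum_const, Finset.card_univ, Fintype.card_fin, nsmul_eq_mul, ZMod.natCast_self,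
            zero_mul, zero_sub]
        · simp only [h7, if_false, Finset.sum_const_zero]
      rw [h8 true, h8 false, sum_crs_true, sum_crs_false, neg_neg]
      by_cases h7 : plc ν true = P
      · by_cases h9 : plc ν false = P
        · rw [if_pos h7, if_pos h7, if_pos h9]; ring
        · rw [if_pos h7, if_pos h7, if_neg h9]; ring
      · by_cases h9 : plc ν false = P
        · rw [if_neg h7, if_neg h7, if_pos h9]; ring
        · rw [if_neg h7, if_neg h7, if_neg h9]; ring
    · rw [if_neg h0]
      have h3 : (if cellB val (.inl (a', none) : PB M r c k) = .inl (a, .inl P) then (1 : ZMod r) else 0) = 0 := by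
        simp [cellB, h0]
      rw [h3, zero_add]
      refine Finset.sum_eq_zero fun z _ => ?_
      obtain ⟨ν, b, t⟩ := z
      rw [if_neg]
      simp only [cellB, Sum.inl.injEq, Prod.mk.injEq]
      rintro ⟨h6, _⟩
      exact h0 h6
  rw [Finset.sum_congr rfl fun a' _ => h1 a', Finset.sum_ite_eq' Finset.univ a, if_pos (Finset.mem_univ a)]

/-! ### the sums of the sides at a place -/

theorem plus_node (val : Vr M → ZMod r) (v t : Fin M) :
    (∑ ν : Vr M, if plc ν true = Place.node v t then val ν else 0) = val (.inl (v, t)) + val (.inr (v, t.castSucc)) := by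
  rw [Fintype.sum_sum_type, Fintype.sum_prod_type, Fintype.sum_prod_type]
  congr 1
  · simp only [plc, Place.node.injEq]
    rw [Finset.sum_eq_single v]
    · rw [Finset.sum_eq_single t]
      · simp
      · intro b _ hb; simp [hb]
      · intro h; exact absurd (Finset.mem_univ _) h
    · intro b _ hb
      refine Finset.sum_eq_zero fun b' _ => ?_
      simp [hb]
    · intro h; exact absurd (Finset.mem_univ _) h
  · rw [Finset.sum_eq_single v]
    · rw [Fin.sum_univ_castSucc]
      simp only [plc, Fin.lastCases_castSucc, Fin.lastCases_last, Place.node.injEq, true_and, reduceCtorEq, if_false, add_zero]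
      rw [Finset.sum_ite_eq' Finset.univ t, if_pos (Finset.mem_univ t)]
    · intro b _ hb
      rw [Fin.sum_univ_castSucc]
      simp only [plc, Fin.lastCases_castSucc, Fin.lastCases_last, Place.node.injEq, hb, false_and, reduceCtorEq, if_false,
        Finset.sum_const_zero, add_zero]
    · intro h; exact absurd (Finset.mem_univ _) h

theorem minus_node (val : Vr M → ZMod r) (v t : Fin M) :
    (∑ ν : Vr M, if plc ν false = Place.node v t then val ν else 0) = val (.inr (v, t.succ)) := by
  rw [Fintype.sum_sum_type, Fintype.sum_prod_type, Fintype.sum_prod_type]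
  have h1 : (∑ u : Fin M, ∑ v' : Fin M, if plc (.inl (u, v')) false = Place.node v t then val (.inl (u, v')) else 0) = 0 := by
    refine Finset.sum_eq_zero fun u _ => Finset.sum_eq_zero fun v' _ => ?_
    simp [plc]
  rw [h1, zero_add, Finset.sum_eq_single v]
  · rw [Fin.sum_univ_succ]
    simp only [plc, Fin.cases_succ, Fin.cases_zero, Place.node.injEq, true_and, reduceCtorEq, if_false, zero_add]
    rw [Finset.sum_ite_eq' Finset.univ t, if_pos (Finset.mem_univ t)]
  · intro b _ hb
    rw [Fin.sum_univ_succ]
    simp only [plc, Fin.cases_succ, Fin.cases_zero, Place.node.injEq, hb, false_and, reduceCtorEq, if_false,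
      Finset.sum_const_zero, add_zero]
  · intro h; exact absurd (Finset.mem_univ _) h

theorem plus_start (val : Vr M → ZMod r) (v : Fin M) :
    (∑ ν : Vr M, if plc ν true = Place.start v then val ν else 0) = 0 := by
  refine Finset.sum_eq_zero fun ν _ => ?_
  rcases ν with ⟨u, v'⟩ | ⟨v', t⟩
  · simp [plc]
  · refine Fin.lastCases ?_ (fun i => ?_) t <;> simp [plc]

theorem minus_start (val : Vr M → ZMod r) (v : Fin M) :
    (∑ ν : Vr M, if plc ν false = Place.start v then val ν else 0) = val (.inr (v, 0)) := by
  rw [Fintype.sum_sum_type, Fintype.sum_prod_type, Fintype.sum_prod_type]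
  have h1 : (∑ u : Fin M, ∑ v' : Fin M, if plc (.inl (u, v')) false = Place.start v then val (.inl (u, v')) else 0) = 0 := by
    refine Finset.sum_eq_zero fun u _ => Finset.sum_eq_zero fun v' _ => ?_
    simp [plc]
  rw [h1, zero_add, Finset.sum_eq_single v]
  · rw [Fin.sum_univ_succ]
    simp [plc]
  · intro b _ hb
    rw [Fin.sum_univ_succ]
    simp [plc, hb]
  · intro h; exact absurd (Finset.mem_univ _) h

theorem plus_stop (val : Vr M → ZMod r) (v : Fin M) :
    (∑ ν : Vr M, if plc ν true = Place.stop v then val ν else 0) = val (.inr (v, Fin.last M)) := by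
  rw [Fintype.sum_sum_type, Fintype.sum_prod_type, Fintype.sum_prod_type]
  have h1 : (∑ u : Fin M, ∑ v' : Fin M, if plc (.inl (u, v')) true = Place.stop v then val (.inl (u, v')) else 0) = 0 := by
    refine Finset.sum_eq_zero fun u _ => Finset.sum_eq_zero fun v' _ => ?_
    simp [plc]
  rw [h1, zero_add, Finset.sum_eq_single v]
  · rw [Fin.sum_univ_castSucc]
    simp [plc]
  · intro b _ hb
    rw [Fin.sum_univ_castSucc]
    simp [plc, hb]
  · intro h; exact absurd (Finset.mem_univ _) h

theorem minus_stop (val : Vr M → ZMod r) (v : Fin M) :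
    (∑ ν : Vr M, if plc ν false = Place.stop v then val ν else 0) = 0 := by
  refine Finset.sum_eq_zero fun ν _ => ?_
  rcases ν with ⟨u, v'⟩ | ⟨v', t⟩
  · simp [plc]
  · refine Fin.cases ?_ (fun i => ?_) t <;> simp [plc]

theorem plus_edge (val : Vr M → ZMod r) (u v : Fin M) :
    (∑ ν : Vr M, if plc ν true = Place.edge u v then val ν else 0) = 0 := by
  refine Finset.sum_eq_zero fun ν _ => ?_
  rcases ν with ⟨u, v'⟩ | ⟨v', t⟩
  · simp [plc]
  · refine Fin.lastCases ?_ (fun i => ?_) t <;> simp [plc]

theorem minus_edge (val : Vr M → ZMod r) (u v : Fin M) (huv : u < v) :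
    (∑ ν : Vr M, if plc ν false = Place.edge u v then val ν else 0) = val (.inl (u, v)) + val (.inl (v, u)) := by
  rw [Fintype.sum_sum_type]
  have h1 : (∑ z : Fin M × Fin (M + 1), if plc (.inr z) false = Place.edge u v then val (.inr z) else 0) = 0 := by
    refine Finset.sum_eq_zero fun z _ => ?_
    obtain ⟨v', t⟩ := z
    refine Fin.cases ?_ (fun i => ?_) t <;> simp [plc]
  rw [h1, add_zero, ← Finset.sum_filter]
  have h2 : (Finset.univ.filter fun z : Fin M × Fin M => plc (.inl z) false = Place.edge u v) = {(u, v), (v, u)} := by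
    ext ⟨a, b⟩
    simp only [Finset.mem_filter, Finset.mem_univ, true_and, plc, Place.edge.injEq, Finset.mem_insert, Finset.mem_singleton,
      Prod.mk.injEq]
    constructor
    · rintro ⟨h3, h4⟩
      rcases le_total a b with h5 | h5
      · left; rw [min_eq_left h5] at h3; rw [max_eq_right h5] at h4; exact ⟨h3, h4⟩
      · right; rw [min_eq_right h5] at h3; rw [max_eq_left h5] at h4; exact ⟨h4, h3⟩
    · rintro (⟨rfl, rfl⟩ | ⟨rfl, rfl⟩)
      · exact ⟨min_eq_left huv.le, max_eq_right huv.le⟩
      · exact ⟨min_eq_right huv.le, max_eq_left huv.le⟩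
  rw [h2, Finset.sum_pair]
  intro h
  exact huv.ne (Prod.mk.inj h).1

theorem minus_edge_diag (val : Vr M → ZMod r) (u : Fin M) :
    (∑ ν : Vr M, if plc ν false = Place.edge u u then val ν else 0) = val (.inl (u, u)) := by
  rw [Fintype.sum_sum_type]
  have h1 : (∑ z : Fin M × Fin (M + 1), if plc (.inr z) false = Place.edge u u then val (.inr z) else 0) = 0 := by
    refine Finset.sum_eq_zero fun z _ => ?_
    obtain ⟨v', t⟩ := z
    refine Fin.cases ?_ (fun i => ?_) t <;> simp [plc]
  rw [h1, add_zero, ← Finset.sum_filter]
  have h2 : (Finset.univ.filter fun z : Fin M × Fin M => plc (.inl z) false = Place.edge u u) = {(u, u)} := by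
    ext ⟨a, b⟩
    simp only [Finset.mem_filter, Finset.mem_univ, true_and, plc, Place.edge.injEq, Finset.mem_singleton, Prod.mk.injEq]
    constructor
    · rintro ⟨h3, h4⟩
      rcases le_total a b with h5 | h5
      · rw [min_eq_left h5] at h3; rw [max_eq_right h5] at h4; exact ⟨h3, h4⟩
      · rw [min_eq_right h5] at h3; rw [max_eq_left h5] at h4; exact ⟨h4, h3⟩
    · rintro ⟨rfl, rfl⟩
      exact ⟨min_self _, max_self _⟩
  rw [h2, Finset.sum_singleton]

/-- The values satisfy the equation of the place. -/
def Eqn (val : Vr M → ZMod r) : Place M → Prop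
  | .node v t => val (.inr (v, t.castSucc)) + val (.inl (v, t)) = val (.inr (v, t.succ))
  | .edge u v => if u = v then val (.inl (u, u)) = 0 else val (.inl (u, v)) + val (.inl (v, u)) = 0
  | .start v => val (.inr (v, 0)) = 0
  | .stop v => val (.inr (v, Fin.last M)) = if v = 0 then 1 else 0

/-- The places of the sides. -/
def Place.ok : Place M → Prop
  | .edge u v => u ≤ v
  | _ => True

theorem plc_ok (ν : Vr M) (b : Bool) : (plc ν b).ok := by
  rcases ν with ⟨u, v⟩ | ⟨v, t⟩
  · cases b
    · exact min_le_max
    · exact trivial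
  · cases b
    · refine Fin.cases ?_ (fun i => ?_) t
      · simp only [plc, Fin.cases_zero]; exact trivial
      · simp only [plc, Fin.cases_succ]; exact trivial
    · refine Fin.lastCases ?_ (fun i => ?_) t
      · simp only [plc, Fin.lastCases_last]; exact trivial
      · simp only [plc, Fin.lastCases_castSucc]; exact trivial

theorem cnt_place_zero (val : Vr M → ZMod r) (a : Fin c) (P : Place M) (hP : P.ok) (hE : Eqn val P) :
    ∑ z : PB M r c k, (if cellB val z = .inl (a, .inl P) then (1 : ZMod r) else 0) = 0 := by
  rw [cnt_place]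
  cases P with
  | node v t =>
      rw [plus_node, minus_node]
      simp only [Eqn] at hE
      rw [← hE]
      simp only [reduceCtorEq, if_false]
      ring
  | edge u v =>
      rw [plus_edge]
      simp only [Place.ok] at hP
      simp only [Eqn] at hE
      rcases hP.lt_or_eq with h | h
      · rw [if_neg h.ne] at hE
        rw [minus_edge _ _ _ h, hE]
        simp
      · subst h
        rw [if_pos rfl] at hE
        rw [minus_edge_diag, hE]
        simp
  | start v =>
      rw [plus_start, minus_start]
      simp only [Eqn] at hE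
      rw [hE]
      simp
  | stop v =>
      rw [plus_stop, minus_stop]
      simp only [Eqn] at hE
      rw [hE]
      by_cases h : v = 0
      · simp [h]
      · have h' : ¬ (0 : Fin M) = v := fun h2 => h h2.symm
        simp [h, h']

/-- The place whose equation is used for the class of a point. -/
def mpl : PB M r c k → Place M
  | .inl (_, some (ν, b, _)) => plc ν b
  | _ => .stop 0

/-- The classes have sizes divisible by `r`. -/
theorem cls_dvd (val : Vr M → ZMod r) (z : PB M r c k) (hE : (∃ o, z = .inl o) → Eqn val (mpl z)) :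
    r ∣ (Finset.univ.filter fun z' : PB M r c k => cellB val z' = cellB val z).card := by
  rw [← ZMod.natCast_eq_zero_iff]
  have h0 : (((Finset.univ.filter fun z' : PB M r c k => cellB val z' = cellB val z).card : ℕ) : ZMod r) =
      ∑ z' : PB M r c k, if cellB val z' = cellB val z then (1 : ZMod r) else 0 := by
    rw [Finset.sum_boole]
  rw [h0]
  rcases z with ⟨a, _ | ⟨ν, b, t⟩⟩ | ⟨j, t⟩
  · exact cnt_place_zero val a (.stop 0) trivial (hE ⟨_, rfl⟩)
  · have e1 : cellB val (.inl (a, some (ν, b, t)) : PB M r c k) = .inl (a, if crs b (val ν) t then .inr ν else .inl (plc ν b)) := rfl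
    rw [e1]
    by_cases hc : crs b (val ν) t = true
    · rw [if_pos hc]
      exact cnt_cross val a ν
    · rw [if_neg hc]
      exact cnt_place_zero val a _ (plc_ok ν b) (hE ⟨_, rfl⟩)
  · exact cnt_fix val j

end count

end ACpFrege
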