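import Pool.Agent.H65.AF.Defs

/-!
The counting principles `Count_q^N` as CNFs (formulas, rules and refutations: Pool/Agent/H65/AF/Defs.lean).
-/

set_option autoImplicit false

namespace ACpFrege

/-- The `q`-element subsets of `{0, .., N - 1}`. -/
noncomputable def blk (q N : ℕ) : List (Finset ℕ) := ((Finset.range N).powersetCard q).toList

/-- The number of the variable `z_e` of a finite set `e` (different sets have different numbers). -/
def zvar (e : Finset ℕ) : ℕ := ∑ i ∈ e, 2 ^ i

/-- The counting principle `Count_q^N` (more precisely, its negation as a CNF): the variables `z_e`, `e` a `q`-element subset of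
`{0, .., N - 1}`, describe a partition of `{0, .., N - 1}` into `q`-element sets: every `i` is in some `e` with `z_e` true, and no
two different sets `e`, `f` which have an element in common are both chosen. For `q = 2` this is the perfect matching principle. -/
noncomputable def CountCNF (q N : ℕ) : CNF :=
  ((List.range N).map fun i => ((blk q N).filter fun e => i ∈ e).map fun e => (zvar e, true)) ++
    (blk q N).flatMap fun e => ((blk q N).filter fun f => e ≠ f ∧ ¬ Disjoint e f).map fun f => [(zvar e, false), (zvar f, false)]

end ACpFrege
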