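import Pool.Agent.H16.CQ.Defs

/-!
helper16 (project MP_28250c_CQ): a local cell structure on the points gives a local reduction of the counting principle.
-/

set_option autoImplicit false
open Finset

namespace ACpFrege

/-- Every finite set has a partial partition into `r`-element sets, which is a partition if `r` divides its size. -/
theorem exists_part (r : ℕ) (hr : 1 ≤ r) (R : Finset ℕ) : ∃ P : Finset (Finset ℕ), (∀ e ∈ P, e ⊆ R ∧ e.card = r) ∧
    (∀ e ∈ P, ∀ f ∈ P, e ≠ f → Disjoint e f) ∧ (r ∣ R.card → ∀ i ∈ R, ∃ e ∈ P, i ∈ e) := by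
  classical
  induction h : R.card using Nat.strong_induction_on generalizing R with
  | _ k ih =>
    by_cases hd : r ∣ k
    · rcases Nat.eq_zero_or_pos k with h0 | hpos
      · refine ⟨∅, by simp, by simp, ?_⟩
        intro _ i hi
        rw [h0, Finset.card_eq_zero] at h
        rw [h] at hi
        simp at hi
      · have hrk : r ≤ R.card := by rw [h]; exact Nat.le_of_dvd hpos hd
        obtain ⟨e, heR, he⟩ := Finset.exists_subset_card_eq hrk
        have hc : (R \ e).card = k - r := by rw [Finset.card_sdiff_of_subset heR, h, he]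
        obtain ⟨P, h1, h2, h3⟩ := ih (k - r) (by omega) (R \ e) hc
        have hdis : ∀ f ∈ P, Disjoint e f := by
          intro f hf
          rw [Finset.disjoint_left]
          intro i hi hif
          exact (Finset.mem_sdiff.1 ((h1 f hf).1 hif)).2 hi
        refine ⟨insert e P, ?_, ?_, ?_⟩
        · intro f hf
          rcases Finset.mem_insert.1 hf with rfl | hf
          · exact ⟨heR, he⟩
          · exact ⟨(h1 f hf).1.trans Finset.sdiff_subset, (h1 f hf).2⟩
        · intro f hf g hg hne
          rcases Finset.mem_insert.1 hf with hf1 | hf1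
          · rcases Finset.mem_insert.1 hg with hg1 | hg1
            · exact absurd (hf1.trans hg1.symm) hne
            · rw [hf1]; exact hdis g hg1
          · rcases Finset.mem_insert.1 hg with hg1 | hg1
            · rw [hg1]; exact (hdis f hf1).symm
            · exact h2 f hf1 g hg1 hne
        · intro _ i hi
          by_cases hie : i ∈ e
          · exact ⟨e, Finset.mem_insert_self _ _, hie⟩
          · have hd' : r ∣ k - r := Nat.dvd_sub hd dvd_rfl
            obtain ⟨f, hf, hif⟩ := h3 hd' i (Finset.mem_sdiff.2 ⟨hi, hie⟩)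
            exact ⟨f, Finset.mem_insert_of_mem hf, hif⟩
    · exact ⟨∅, by simp, by simp, fun h => absurd h hd⟩

/-- A chosen partial partition. -/
noncomputable def part (r : ℕ) (R : Finset ℕ) : Finset (Finset ℕ) :=
  if h : 1 ≤ r then (exists_part r h R).choose else ∅

theorem part_sub {r : ℕ} {R e : Finset ℕ} (he : e ∈ part r R) : e ⊆ R ∧ e.card = r := by
  unfold part at he
  split_ifs at he with h
  · exact (exists_part r h R).choose_spec.1 e he
  · simp at he

theorem part_disj {r : ℕ} {R e f : Finset ℕ} (he : e ∈ part r R) (hf : f ∈ part r R) (hne : e ≠ f) : Disjoint e f := by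
  unfold part at he hf
  split_ifs at he hf with h
  · exact (exists_part r h R).choose_spec.2.1 e he f hf hne
  · simp at he

theorem part_cov {r : ℕ} (hr : 1 ≤ r) {R : Finset ℕ} (h : r ∣ R.card) {i : ℕ} (hi : i ∈ R) : ∃ e ∈ part r R, i ∈ e := by
  unfold part
  rw [dif_pos hr]
  exact (exists_part r hr R).choose_spec.2.2 h i hi

theorem mem_blk {q N : ℕ} {e : Finset ℕ} : e ∈ blk q N ↔ e ⊆ Finset.range N ∧ e.card = q := by
  unfold blk
  rw [Finset.mem_toList, Finset.mem_powersetCard]

theorem zvar_inj {e f : Finset ℕ} (h : zvar e = zvar f) : e = f := by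
  have h1 := Finset.toFinset_bitIndices_sum_two_pow e
  have h2 := Finset.toFinset_bitIndices_sum_two_pow f
  unfold zvar at h
  rw [← h1, ← h2, h]

theorem zvar_lt {N : ℕ} {e : Finset ℕ} (h : e ⊆ Finset.range N) : zvar e < 2 ^ N := by
  unfold zvar
  calc ∑ i ∈ e, 2 ^ i ≤ ∑ i ∈ Finset.range N, 2 ^ i := Finset.sum_le_sum_of_subset h
    _ < 2 ^ N := Nat.geomSum_lt (le_refl 2) (fun k hk => Finset.mem_range.1 hk)

variable {n : ℕ} {Λ : Type} [DecidableEq Λ]

/-- The class of the point `i`. -/
def cls (N : ℕ) (cell : ℕ → Λ) (i : ℕ) : Finset ℕ := (Finset.range N).filter fun j => cell j = cell i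

theorem mem_cls {N : ℕ} {cell : ℕ → Λ} {i j : ℕ} : j ∈ cls N cell i ↔ j < N ∧ cell j = cell i := by
  unfold cls
  rw [Finset.mem_filter, Finset.mem_range]

theorem cls_eq {N : ℕ} {cell : ℕ → Λ} {i j : ℕ} (h : cell i = cell j) : cls N cell i = cls N cell j := by
  unfold cls
  rw [h]

open Classical in
/-- The substitution for the variables of the counting principle given by cells. -/
noncomputable def sgm (r N : ℕ) (cell : Pt n → ℕ → Λ) (z : Fin (2 ^ N)) (x : Pt n) : Bool :=
  decide (∃ e : Finset ℕ, zvar e = z.val ∧ ∃ i ∈ e, e ∈ part r (cls N (cell x) i))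

/-- The value of the substituted variable of the set `e`, seen from its element `i`. -/
theorem sgm_iff {r N : ℕ} {cell : Pt n → ℕ → Λ} {z : Fin (2 ^ N)} {x : Pt n} {e : Finset ℕ} (hz : zvar e = z.val) {i : ℕ}
    (hi : i ∈ e) : sgm r N cell z x = true ↔ e ∈ part r (cls N (cell x) i) := by
  classical
  unfold sgm
  rw [decide_eq_true_eq]
  constructor
  · rintro ⟨f, hf, i', hi', hp⟩
    obtain rfl : f = e := zvar_inj (hf.trans hz.symm)
    have h1 := mem_cls.1 ((part_sub hp).1 hi)
    rw [cls_eq h1.2]
    exact hp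
  · intro h
    exact ⟨e, hz, i, hi, h⟩

/-- Cells give a local reduction of the counting principle. -/
theorem count_red {r N B : ℕ} {F : CNF} (hr : 1 ≤ r) (cell : Pt n → ℕ → Λ) (S : ℕ → Finset (Fin n))
    (hS : ∀ i < N, (S i).card ≤ B) (h1 : ∀ i < N, DepOn (S i) fun x => cls N (cell x) i)
    (h2 : ∀ i < N, ∀ x : Pt n, SatOn F (S i) x → r ∣ (cls N (cell x) i).card) :
    LocRed n (2 ^ N) F (CountCNF r N) (sgm r N cell) B := by
  classical
  have hdep : ∀ (z : Fin (2 ^ N)) (e : Finset ℕ), zvar e = z.val → ∀ i ∈ e, i < N → DepOn (S i) (sgm r N cell z) := by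
    intro z e hz i hi hiN x y hxy
    have h3 := h1 i hiN x y hxy
    simp only at h3
    rw [Bool.eq_iff_iff, sgm_iff hz hi, sgm_iff hz hi, h3]
  refine ⟨?_, ?_, ?_⟩
  · intro z
    by_cases h : ∃ e : Finset ℕ, zvar e = z.val ∧ ∃ i ∈ e, i < N
    · obtain ⟨e, hz, i, hi, hiN⟩ := h
      exact ⟨S i, hS i hiN, hdep z e hz i hi hiN⟩
    · refine ⟨∅, by simp, ?_⟩
      have h0 : ∀ x : Pt n, sgm r N cell z x = false := by
        intro x
        unfold sgm
        rw [decide_eq_false_iff_not]
        rintro ⟨e, hz, i, hi, hp⟩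
        exact h ⟨e, hz, i, hi, (mem_cls.1 ((part_sub hp).1 hi)).1⟩
      intro x y _
      rw [h0, h0]
  · intro C hC l hl
    unfold CountCNF at hC
    rcases List.mem_append.1 hC with hC | hC
    · obtain ⟨i, _, rfl⟩ := List.mem_map.1 hC
      obtain ⟨e, he, rfl⟩ := List.mem_map.1 hl
      exact zvar_lt (mem_blk.1 (List.mem_filter.1 he).1).1
    · obtain ⟨e, he, hC⟩ := List.mem_flatMap.1 hC
      obtain ⟨f, hf, rfl⟩ := List.mem_map.1 hC
      rcases List.mem_cons.1 hl with rfl | hl
      · exact zvar_lt (mem_blk.1 he).1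
      · rcases List.mem_cons.1 hl with rfl | hl
        · exact zvar_lt (mem_blk.1 (List.mem_filter.1 hf).1).1
        · simp at hl
  · intro C hC
    unfold CountCNF at hC
    rcases List.mem_append.1 hC with hC | hC
    · obtain ⟨i, hi, rfl⟩ := List.mem_map.1 hC
      have hiN : i < N := List.mem_range.1 hi
      refine ⟨S i, hS i hiN, ?_, ?_⟩
      · intro l hl h
        obtain ⟨e, he, rfl⟩ := List.mem_map.1 hl
        rw [List.mem_filter] at he
        exact hdep ⟨zvar e, h⟩ e rfl i (of_decide_eq_true he.2) hiN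
      · intro x hx
        have hm : i ∈ cls N (cell x) i := mem_cls.2 ⟨hiN, rfl⟩
        obtain ⟨e, he, hie⟩ := part_cov hr (h2 i hiN x hx) hm
        have hsub := part_sub he
        have her : e ⊆ Finset.range N := hsub.1.trans (Finset.filter_subset _ _)
        refine ⟨(zvar e, true), List.mem_map.2 ⟨e, List.mem_filter.2 ⟨mem_blk.2 ⟨her, hsub.2⟩, decide_eq_true hie⟩, rfl⟩,
          zvar_lt her, ?_⟩
        exact (sgm_iff (z := ⟨zvar e, zvar_lt her⟩) rfl hie).2 he
    · obtain ⟨e, he, hC⟩ := List.mem_flatMap.1 hC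
      obtain ⟨f, hf, rfl⟩ := List.mem_map.1 hC
      rw [List.mem_filter] at hf
      obtain ⟨hne, hnd⟩ := of_decide_eq_true hf.2
      rw [Finset.not_disjoint_iff] at hnd
      obtain ⟨i, hie, hif⟩ := hnd
      have heN := (mem_blk.1 he).1
      have hfN := (mem_blk.1 hf.1).1
      have hiN : i < N := Finset.mem_range.1 (heN hie)
      refine ⟨S i, hS i hiN, ?_, ?_⟩
      · intro l hl h
        rcases List.mem_cons.1 hl with rfl | hl
        · exact hdep ⟨zvar e, h⟩ e rfl i hie hiN
        · rcases List.mem_cons.1 hl with rfl | hl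
          · exact hdep ⟨zvar f, h⟩ f rfl i hif hiN
          · simp at hl
      · intro x _
        by_cases h3 : sgm r N cell ⟨zvar e, zvar_lt heN⟩ x = false
        · exact ⟨(zvar e, false), List.mem_cons_self, zvar_lt heN, h3⟩
        · refine ⟨(zvar f, false), List.mem_cons_of_mem _ List.mem_cons_self, zvar_lt hfN, ?_⟩
          by_contra h4
          have h3' : sgm r N cell ⟨zvar e, zvar_lt heN⟩ x = true := by simpa using h3
          have h4' : sgm r N cell ⟨zvar f, zvar_lt hfN⟩ x = true := by simpa using h4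
          rw [sgm_iff rfl hie] at h3'
          rw [sgm_iff rfl hif] at h4'
          have h5 := part_disj h3' h4' hne
          exact (Finset.disjoint_left.1 h5 hie) hif

end ACpFrege
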