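import Pool.Agent.H65.AF.ADefs
import Pool.Agent.H16.CQ.Count

/-!
helper16 (project MP_28250c_CQ): slow modules for CNFs with clauses of any width, local reductions.
-/

set_option autoImplicit false

namespace ACpFrege

/-- The CNF `F` (variables with index below `n`) has a slow module of length `L` and growth factor `A` over a field of
characteristic `p`; the condition for the clauses is in the form which makes sense for clauses of any width: a vector which is
killed by all literals of a clause is zero. -/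
def HasSlowW (p n : ℕ) (F : CNF) (w L A : ℕ) : Prop :=
  ∃ (K : Type) (_ : Field K) (_ : CharP K p) (E : Type) (_ : AddCommGroup E) (_ : Module K E) (_ : FiniteDimensional K E)
    (s : Slow K E n), s.L = L ∧ 0 < Module.finrank K (s.M 0) ∧
      Module.finrank K (s.M L) ≤ A * Module.finrank K (s.M 0) ∧
      ∀ C ∈ F, ∀ j, j + w ≤ L → ∀ m ∈ s.M j, (∀ l ∈ C, s.lit l m = m) → m = 0

/-- `F` is satisfied by the point `x` of the cube on all clauses whose variables are in `S`. -/
def SatOn {n : ℕ} (F : CNF) (S : Finset (Fin n)) (x : Pt n) : Prop :=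
  ∀ C ∈ F, (∀ l ∈ C, ∃ i ∈ S, i.val = l.1) → ∃ l ∈ C, ∃ i ∈ S, i.val = l.1 ∧ x i = l.2

/-- `f` depends only on the coordinates in `S`. -/
def DepOn {n : ℕ} {α : Type} (S : Finset (Fin n)) (f : Pt n → α) : Prop := ∀ x y : Pt n, (∀ i ∈ S, x i = y i) → f x = f y

/-- The substitution `σ` is a local reduction of `F'` to `F`, with constant `B`. -/
structure LocRed (n n' : ℕ) (F F' : CNF) (σ : Fin n' → Pt n → Bool) (B : ℕ) : Prop where
  dep : ∀ z, ∃ S : Finset (Fin n), S.card ≤ B ∧ DepOn S (σ z)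
  lt : ∀ C ∈ F', ∀ l ∈ C, l.1 < n'
  cla : ∀ C ∈ F', ∃ S : Finset (Fin n), S.card ≤ B ∧ (∀ l ∈ C, ∀ h : l.1 < n', DepOn S (σ ⟨l.1, h⟩)) ∧
    ∀ x : Pt n, SatOn F S x → ∃ l ∈ C, ∃ h : l.1 < n', σ ⟨l.1, h⟩ x = l.2

end ACpFrege
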