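import Pool.Agent.H16.CQ.CountRed

/-!
helper16 (project MP_28250c_CQ): the counting principle is unsatisfiable if `q` does not divide `N`, and has polynomial size.
-/

set_option autoImplicit false
open Finset

namespace ACpFrege

theorem count_unsat {q N : ℕ} (h : ¬ q ∣ N) : (CountCNF q N).Unsat := by
  classical
  intro a
  by_contra hcon
  push Not at hcon
  have hsat : ∀ C ∈ CountCNF q N, ∃ l ∈ C, a l.1 = l.2 := hcon
  set T : Finset (Finset ℕ) := ((Finset.range N).powersetCard q).filter fun e => a (zvar e) = true with hT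
  have hTm : ∀ e, e ∈ T ↔ (e ⊆ Finset.range N ∧ e.card = q) ∧ a (zvar e) = true := by
    intro e
    rw [hT, Finset.mem_filter, Finset.mem_powersetCard]
  have hdis : ∀ e ∈ T, ∀ f ∈ T, e ≠ f → Disjoint e f := by
    intro e he f hf hne
    by_contra hnd
    rw [hTm] at he hf
    have hC : [(zvar e, false), (zvar f, false)] ∈ CountCNF q N := by
      unfold CountCNF
      refine List.mem_append_right _ (List.mem_flatMap.2 ⟨e, mem_blk.2 he.1, List.mem_map.2 ⟨f, ?_, rfl⟩⟩)
      exact List.mem_filter.2 ⟨mem_blk.2 hf.1, decide_eq_true ⟨hne, hnd⟩⟩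
    obtain ⟨l, hl, hla⟩ := hsat _ hC
    rcases List.mem_cons.1 hl with rfl | hl
    · simp only at hla
      rw [he.2] at hla
      exact absurd hla (by decide)
    · rcases List.mem_cons.1 hl with rfl | hl
      · simp only at hla
        rw [hf.2] at hla
        exact absurd hla (by decide)
      · simp at hl
  have hcov : T.biUnion id = Finset.range N := by
    ext i
    rw [Finset.mem_biUnion]
    constructor
    · rintro ⟨e, he, hie⟩
      exact ((hTm e).1 he).1.1 hie
    · intro hi
      have hC : (((blk q N).filter fun e => i ∈ e).map fun e => (zvar e, true)) ∈ CountCNF q N := by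
        unfold CountCNF
        exact List.mem_append_left _ (List.mem_map.2 ⟨i, List.mem_range.2 (Finset.mem_range.1 hi), rfl⟩)
      obtain ⟨l, hl, hla⟩ := hsat _ hC
      obtain ⟨e, he, rfl⟩ := List.mem_map.1 hl
      rw [List.mem_filter] at he
      exact ⟨e, (hTm e).2 ⟨mem_blk.1 he.1, hla⟩, of_decide_eq_true he.2⟩
  have hcard : N = T.card * q := by
    have h1 : (T.biUnion id).card = ∑ e ∈ T, (id e).card := Finset.card_biUnion fun e he f hf hne => hdis e he f hf hne
    rw [hcov, Finset.card_range] at h1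
    have h2 : ∑ e ∈ T, (id e : Finset ℕ).card = ∑ e ∈ T, q := Finset.sum_congr rfl fun e he => ((hTm e).1 he).1.2
    rw [h1, h2, Finset.sum_const, smul_eq_mul]
  exact h ⟨T.card, by rw [hcard, mul_comm]⟩

theorem blk_length (q N : ℕ) : (blk q N).length ≤ N ^ q := by
  unfold blk
  rw [Finset.length_toList, Finset.card_powersetCard, Finset.card_range]
  exact Nat.choose_le_pow N q

theorem sum_map_le {α : Type} (l : List α) (f : α → ℕ) (B : ℕ) (h : ∀ x ∈ l, f x ≤ B) : (l.map f).sum ≤ l.length * B := by
  induction l with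
  | nil => simp
  | cons x l ih =>
      rw [List.map_cons, List.sum_cons, List.length_cons, Nat.succ_mul, Nat.add_comm]
      exact Nat.add_le_add (ih fun y hy => h y (List.mem_cons_of_mem _ hy)) (h x List.mem_cons_self)

theorem count_size (q N : ℕ) : (CountCNF q N).size ≤ (N + 2) ^ (2 * q + 3) := by
  have hb := blk_length q N
  have hfl : ∀ P : Finset ℕ → Bool, ((blk q N).filter P).length ≤ N ^ q := fun P => (List.length_filter_le _ _).trans hb
  unfold CountCNF CNF.size
  rw [List.map_append, List.sum_append]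
  have h1 : (((List.range N).map fun i => ((blk q N).filter fun e => i ∈ e).map fun e => ((zvar e, true) : Lit)).map
      fun C => 1 + C.length).sum ≤ N * (1 + N ^ q) := by
    rw [List.map_map]
    refine (sum_map_le _ _ (1 + N ^ q) ?_).trans (by rw [List.length_range])
    intro i _
    simp only [Function.comp_apply, List.length_map]
    exact Nat.add_le_add_left (hfl _) 1
  have h2 : (((blk q N).flatMap fun e => ((blk q N).filter fun f => e ≠ f ∧ ¬ Disjoint e f).map
      fun f => [((zvar e, false) : Lit), (zvar f, false)]).map fun C => 1 + C.length).sum ≤ N ^ q * (N ^ q * 3) := by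
    rw [List.map_flatMap]
    have h3 : ∀ l : List (List ℕ), l.flatten.sum = (l.map List.sum).sum := by
      intro l
      induction l with
      | nil => rfl
      | cons a l ih => rw [List.flatten_cons, List.sum_append, List.map_cons, List.sum_cons, ih]
    rw [List.flatMap, h3, List.map_map]
    refine (sum_map_le _ _ (N ^ q * 3) ?_).trans (Nat.mul_le_mul_right _ hb)
    intro e _
    simp only [Function.comp_apply]
    rw [List.map_map]
    refine (sum_map_le _ _ 3 ?_).trans (Nat.mul_le_mul_right _ (hfl _))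
    intro f _
    simp
  refine (Nat.add_le_add h1 h2).trans ?_
  have h4 : 1 ≤ (N + 2) ^ q := Nat.one_le_pow _ _ (by omega)
  have h5 : N ^ q ≤ (N + 2) ^ q := Nat.pow_le_pow_left (by omega) q
  have h6 : N * (1 + N ^ q) ≤ (N + 2) ^ (2 * q + 2) := by
    calc N * (1 + N ^ q) ≤ (N + 2) * (2 * (N + 2) ^ q) := Nat.mul_le_mul (by omega) (by omega)
      _ ≤ (N + 2) * ((N + 2) * (N + 2) ^ q) * (N + 2) ^ q := by
        calc (N + 2) * (2 * (N + 2) ^ q) ≤ (N + 2) * ((N + 2) * (N + 2) ^ q) :=
              Nat.mul_le_mul_left _ (Nat.mul_le_mul_right _ (by omega))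
          _ ≤ (N + 2) * ((N + 2) * (N + 2) ^ q) * (N + 2) ^ q := Nat.le_mul_of_pos_right _ (by omega)
      _ = (N + 2) ^ (2 * q + 2) := by ring
  have h7 : N ^ q * (N ^ q * 3) ≤ (N + 2) ^ (2 * q + 2) := by
    calc N ^ q * (N ^ q * 3) ≤ (N + 2) ^ q * ((N + 2) ^ q * ((N + 2) * (N + 2))) := by
          refine Nat.mul_le_mul h5 (Nat.mul_le_mul h5 ?_)
          nlinarith
      _ = (N + 2) ^ (2 * q + 2) := by ring
  calc N * (1 + N ^ q) + N ^ q * (N ^ q * 3) ≤ (N + 2) ^ (2 * q + 2) + (N + 2) ^ (2 * q + 2) := Nat.add_le_add h6 h7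
    _ = 2 * (N + 2) ^ (2 * q + 2) := by ring
    _ ≤ (N + 2) * (N + 2) ^ (2 * q + 2) := Nat.mul_le_mul_right _ (by omega)
    _ = (N + 2) ^ (2 * q + 3) := by ring

end ACpFrege
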