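import Mathlib

/-!
helper16 (project MP_28250c_CQ): numerics.
-/

set_option autoImplicit false

namespace ACpFrege

theorem cq_ev {a : ℝ} (ha : 0 < a) (B : ℝ) : ∃ n0 : ℕ, ∀ n ≥ n0, B ≤ (n : ℝ) ^ a := by
  have h := ((tendsto_rpow_atTop ha).comp tendsto_natCast_atTop_atTop).eventually_ge_atTop B
  obtain ⟨n0, h0⟩ := Filter.eventually_atTop.mp h
  exact ⟨n0, fun n hn => h0 n hn⟩

/-- growth: the exponential inequality -/
theorem cq_expo {C : ℕ} (hC : 1 ≤ C) {x y : ℝ} (hx : 1 ≤ x) {ε : ℝ} (he : 0 < ε) (hy : y = x ^ ε) (hy1 : 1 ≤ y)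
    (hY : Real.log (2 * C) + 1 / ε + Real.log 2 < y * Real.log (3 / 2)) {Q M t : ℕ} (hQ : (Q : ℝ) ≤ 2 ^ y + 1)
    (hM : (M : ℝ) ^ 2 ≤ x) (ht : y ^ 2 ≤ t) : Q * C * M ^ 2 * 2 ^ t < 3 ^ t := by
  have hC' : (1 : ℝ) ≤ C := by exact_mod_cast hC
  have hx0 : 0 < x := by linarith
  have hlogx : Real.log x = Real.log y / ε := by
    rw [hy, Real.log_rpow hx0]; field_simp
  have hlC : 0 ≤ Real.log (2 * C) := Real.log_nonneg (by linarith)
  have hly : Real.log y ≤ y := by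
    have := Real.log_le_sub_one_of_pos (show 0 < y by linarith)
    linarith
  have hkey : 2 * (C : ℝ) * x * 2 ^ y < (3 / 2) ^ t := by
    have hpos : 0 < 2 * (C : ℝ) * x * 2 ^ y := by positivity
    rw [← Real.log_lt_log_iff hpos (by positivity)]
    rw [Real.log_mul (by positivity) (by positivity), Real.log_mul (by positivity) (by positivity),
      Real.log_rpow (by norm_num), Real.log_pow, hlogx]
    have hl32 : 0 < Real.log (3 / 2) := Real.log_pos (by norm_num)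
    have h1 : y ^ 2 * Real.log (3 / 2) ≤ t * Real.log (3 / 2) := mul_le_mul_of_nonneg_right ht hl32.le
    have h2 : y * (Real.log (2 * C) + 1 / ε + Real.log 2) < y * (y * Real.log (3 / 2)) :=
      mul_lt_mul_of_pos_left hY (by linarith)
    have h3 : Real.log (2 * C) ≤ y * Real.log (2 * C) := by nlinarith
    have h4 : Real.log y / ε ≤ y * (1 / ε) := by
      have : Real.log y / ε ≤ y / ε := div_le_div_of_nonneg_right hly he.le
      calc Real.log y / ε ≤ y / ε := this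
        _ = y * (1 / ε) := by ring
    nlinarith
  have h2y : (1 : ℝ) ≤ 2 ^ y := Real.one_le_rpow (by norm_num) (by linarith)
  have hN2 : (Q : ℝ) ≤ 2 * 2 ^ y := by linarith
  have h5 : (Q : ℝ) * C * M ^ 2 ≤ 2 * (C : ℝ) * x * 2 ^ y := by
    calc (Q : ℝ) * C * M ^ 2 ≤ (2 * 2 ^ y) * C * x := by gcongr
      _ = _ := by ring
  have h6 : (Q : ℝ) * C * M ^ 2 * 2 ^ t < 3 ^ t := by
    calc (Q : ℝ) * C * M ^ 2 * 2 ^ t < (3 / 2) ^ t * 2 ^ t :=
          mul_lt_mul_of_pos_right (h5.trans_lt hkey) (by positivity)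
      _ = 3 ^ t := by rw [← mul_pow]; norm_num
  exact_mod_cast h6

/-- The parameters. -/
theorem cq_num (p r q C d M₀ : ℕ) (hp : 1 ≤ p) (hr : 1 ≤ r) (hq : 1 ≤ q) (hC : 1 ≤ C) :
    ∃ N₀ : ℕ, ∀ N ≥ N₀, ∃ M L t Q : ℕ, M₀ ≤ M ∧ 1 ≤ M ∧ 7 * r ^ 2 * M ^ 2 ≤ N ∧ 8 ≤ L ∧ (2 * L + 4) ^ 400 ≤ M ∧ 1 ≤ t ∧
      C * (p * t) ^ (d + 2) ≤ L / (3 * q) ∧ Q * C * M ^ 2 * 2 ^ t < 3 ^ t ∧
        (2 : ℝ) ^ ((N : ℝ) ^ ((1 : ℝ) / (4000 * (d + 2)))) ≤ Q := by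
  set ε : ℝ := (1 : ℝ) / (4000 * (d + 2)) with hε
  have hε0 : 0 < ε := by positivity
  have hr' : (1 : ℝ) ≤ r := by exact_mod_cast hr
  have hq' : (1 : ℝ) ≤ q := by exact_mod_cast hq
  obtain ⟨n1, hn1⟩ := cq_ev hε0 (max 1 ((Real.log (2 * C) + 1 / ε + Real.log 2 + 1) / Real.log (3 / 2)))
  obtain ⟨n2, hn2⟩ := cq_ev (show (0 : ℝ) < 3 / 4000 by norm_num) (192 * r * q * ((C : ℝ) * (2 * p) ^ (d + 2) + 1))
  obtain ⟨n3, hn3⟩ := cq_ev (show (0 : ℝ) < 1 / 800 by norm_num) (192 * r * q * 20)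
  obtain ⟨n4, hn4⟩ := cq_ev (show (0 : ℝ) < 1 / 2 by norm_num) (8 * r * (M₀ + 4))
  refine ⟨max (max (max n1 n2) (max n3 n4)) 1, ?_⟩
  intro N hN
  have g1 := hn1 N (by omega)
  have g2 := hn2 N (by omega)
  have g3 := hn3 N (by omega)
  have g4 := hn4 N (by omega)
  have hx1 : (1 : ℝ) ≤ N := by exact_mod_cast (show 1 ≤ N by omega)
  set x : ℝ := (N : ℝ) with hx
  have hx0 : 0 ≤ x := by linarith
  set y : ℝ := x ^ ε with hy
  have hy1 : 1 ≤ y := (le_max_left _ _).trans g1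
  have hl32 : 0 < Real.log (3 / 2) := Real.log_pos (by norm_num)
  have hY : Real.log (2 * C) + 1 / ε + Real.log 2 < y * Real.log (3 / 2) := by
    have := (le_max_right _ _).trans g1
    rw [div_le_iff₀ hl32] at this
    linarith
  -- M
  set M : ℕ := Nat.sqrt (N / (7 * r ^ 2)) with hM
  have hrr : 0 < 7 * r ^ 2 := by positivity
  have hMM : M * M ≤ N / (7 * r ^ 2) := Nat.sqrt_le _
  have hM7 : 7 * r ^ 2 * M ^ 2 ≤ N := by
    rw [pow_two M]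
    exact (Nat.mul_le_mul_left _ hMM).trans (Nat.mul_div_le N _)
  have hMlow : Real.sqrt x / (4 * r) ≤ M := by
    have h1 : N / (7 * r ^ 2) < (M + 1) * (M + 1) := Nat.lt_succ_sqrt _
    have h2 : N < 7 * r ^ 2 * ((M + 1) * (M + 1)) := by
      rw [mul_comm]
      exact (Nat.div_lt_iff_lt_mul hrr).1 h1
    have h3 : x < 7 * (r : ℝ) ^ 2 * ((M + 1) * (M + 1)) := by
      have h2' : ((N : ℕ) : ℝ) < ((7 * r ^ 2 * ((M + 1) * (M + 1)) : ℕ) : ℝ) := Nat.cast_lt.2 h2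
      push_cast at h2'
      exact h2'
    have h4 : Real.sqrt x ≤ 3 * r * (M + 1) := by
      rw [Real.sqrt_le_left (by positivity)]
      nlinarith [sq_nonneg ((r : ℝ) * (M + 1))]
    have hsq : x ^ ((1 : ℝ) / 2) = Real.sqrt x := (Real.sqrt_eq_rpow x).symm
    rw [hsq] at g4
    have h5 : (0 : ℝ) ≤ M₀ := Nat.cast_nonneg _
    have h6 : 32 * (r : ℝ) ≤ Real.sqrt x := by nlinarith
    rw [div_le_iff₀ (by positivity)]
    nlinarith
  have hsq : x ^ ((1 : ℝ) / 2) = Real.sqrt x := (Real.sqrt_eq_rpow x).symm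
  have hMbig : (M₀ : ℝ) + 4 ≤ M := by
    refine le_trans ?_ hMlow
    rw [le_div_iff₀ (by positivity)]
    rw [hsq] at g4
    have h5 : (0 : ℝ) ≤ M₀ := Nat.cast_nonneg _
    nlinarith
  have hMbig' : M₀ + 4 ≤ M := by exact_mod_cast hMbig
  -- P, L
  set P : ℕ := ⌊(M : ℝ) ^ ((1 : ℝ) / 400)⌋₊ with hP
  have hMr0 : (0 : ℝ) ≤ M := Nat.cast_nonneg _
  have hPM : P ^ 400 ≤ M := by
    have h8 : (P : ℝ) ≤ (M : ℝ) ^ ((1 : ℝ) / 400) := Nat.floor_le (Real.rpow_nonneg hMr0 _)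
    have h9 : (P : ℝ) ^ 400 ≤ M := by
      calc (P : ℝ) ^ 400 ≤ ((M : ℝ) ^ ((1 : ℝ) / 400)) ^ 400 := pow_le_pow_left₀ (Nat.cast_nonneg _) h8 400
        _ = M := by
          rw [← Real.rpow_natCast, ← Real.rpow_mul hMr0]
          norm_num
    exact_mod_cast h9
  have hPx : x ^ ((1 : ℝ) / 800) / (4 * r) - 1 ≤ P := by
    have h8 : (M : ℝ) ^ ((1 : ℝ) / 400) < P + 1 := Nat.lt_floor_add_one _
    have h9 : x ^ ((1 : ℝ) / 800) / (4 * r) ≤ (M : ℝ) ^ ((1 : ℝ) / 400) := by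
      have h10 : (x ^ ((1 : ℝ) / 800) / (4 * r)) = ((x ^ ((1 : ℝ) / 800) / (4 * r)) ^ 400) ^ ((1 : ℝ) / 400) := by
        rw [← Real.rpow_natCast, ← Real.rpow_mul (by positivity)]
        norm_num
      rw [h10]
      refine Real.rpow_le_rpow (by positivity) ?_ (by norm_num)
      refine le_trans ?_ hMlow
      rw [div_pow, ← Real.rpow_natCast, ← Real.rpow_mul hx0, show (1 : ℝ) / 800 * ((400 : ℕ) : ℝ) = 1 / 2 by norm_num, hsq]
      have h11 : 4 * (r : ℝ) ≤ (4 * r) ^ 400 := by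
        calc 4 * (r : ℝ) = (4 * r) ^ 1 := (pow_one _).symm
          _ ≤ (4 * r) ^ 400 := pow_le_pow_right₀ (by linarith) (by norm_num)
      exact div_le_div_of_nonneg_left (Real.sqrt_nonneg _) (by positivity) h11
    linarith
  set X : ℝ := x ^ ((1 : ℝ) / 800) with hX
  have hX0 : 192 * (r : ℝ) * q * 20 ≤ X := g3
  have hrq : (r : ℝ) ≤ r * q := by nlinarith
  have hrq1 : (1 : ℝ) ≤ r * q := by nlinarith
  -- P is large
  have hP1 : 24 * (q : ℝ) * 20 ≤ X / (4 * r) / 2 := by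
    rw [div_div, le_div_iff₀ (by positivity)]
    nlinarith
  have hP2 : (24 : ℝ) * q * 20 ≤ P := by
    have h1 : 1 ≤ X / (4 * r) / 2 := by nlinarith
    have h2 : X / (4 * r) - 1 ≤ P := hPx
    linarith
  have hP3 : (480 : ℝ) ≤ P := by nlinarith
  have hP3' : 480 ≤ P := by exact_mod_cast hP3
  set L : ℕ := (P - 4) / 2 with hL
  have hL1 : 2 * L + 4 ≤ P := by omega
  have hL2 : P ≤ 2 * L + 5 := by omega
  have hL8 : 8 ≤ L := by omega
  have hL400 : (2 * L + 4) ^ 400 ≤ M := (Nat.pow_le_pow_left hL1 400).trans hPM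
  -- L / (3q) is large
  have hLq : X / (96 * r * q) ≤ ((L / (3 * q) : ℕ) : ℝ) := by
    have h1 : L < (L / (3 * q) + 1) * (3 * q) := by
      have := Nat.lt_div_mul_add (a := L) (b := 3 * q) (by positivity)
      nlinarith
    have h2 : (L : ℝ) < (((L / (3 * q) : ℕ) : ℝ) + 1) * (3 * q) := by exact_mod_cast h1
    have h3 : (P : ℝ) ≤ 2 * L + 5 := by exact_mod_cast hL2
    have h4 : X / (4 * r) - 1 ≤ P := hPx
    have h5 : X / (4 * r) / 2 ≤ X / (4 * r) - 1 - 5 - 6 * q := by nlinarith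
    have h6 : X / (4 * r) / 2 ≤ ((L / (3 * q) : ℕ) : ℝ) * (6 * q) := by nlinarith
    rw [div_le_iff₀ (by positivity)]
    rw [div_div, div_le_iff₀ (by positivity)] at h6
    have h7 : (0 : ℝ) ≤ ((L / (3 * q) : ℕ) : ℝ) := Nat.cast_nonneg _
    nlinarith
  -- t
  set t : ℕ := ⌈y ^ 2⌉₊ with ht
  have ht1 : (t : ℝ) ≤ y ^ 2 + 1 := (Nat.ceil_lt_add_one (by positivity)).le
  have ht2 : y ^ 2 ≤ t := Nat.le_ceil _
  have ht3 : 1 ≤ t := by
    have : (1 : ℝ) ≤ t := by nlinarith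
    exact_mod_cast this
  have hlen : C * (p * t) ^ (d + 2) ≤ L / (3 * q) := by
    have h1 : (t : ℝ) ≤ 2 * y ^ 2 := by nlinarith
    have h2 : (y ^ 2) ^ (d + 2) = x ^ ((1 : ℝ) / 2000) := by
      rw [hy, hε, ← pow_mul, ← Real.rpow_natCast, ← Real.rpow_mul hx0]
      congr 1
      push_cast
      have : ((d : ℝ) + 2) ≠ 0 := by positivity
      field_simp
      norm_num
    have h3 : (C : ℝ) * (p * t) ^ (d + 2) ≤ C * (2 * p) ^ (d + 2) * x ^ ((1 : ℝ) / 2000) := by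
      rw [← h2]
      calc (C : ℝ) * (p * t) ^ (d + 2) ≤ C * (p * (2 * y ^ 2)) ^ (d + 2) := by gcongr
        _ = C * (2 * p) ^ (d + 2) * (y ^ 2) ^ (d + 2) := by
          rw [show (p : ℝ) * (2 * y ^ 2) = (2 * p) * y ^ 2 by ring, mul_pow]; ring
    have h4 : X = x ^ ((1 : ℝ) / 2000) * x ^ ((3 : ℝ) / 4000) := by
      rw [hX, ← Real.rpow_add (by linarith)]; norm_num
    have h5 : 0 ≤ x ^ ((1 : ℝ) / 2000) := Real.rpow_nonneg hx0 _
    have h6 : (C : ℝ) * (2 * p) ^ (d + 2) * x ^ ((1 : ℝ) / 2000) ≤ X / (96 * r * q) := by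
      rw [le_div_iff₀ (by positivity), h4]
      have h7 : 96 * (r : ℝ) * q * ((C : ℝ) * (2 * p) ^ (d + 2)) ≤ x ^ ((3 : ℝ) / 4000) := by
        refine le_trans ?_ g2
        have h8 : 0 ≤ (C : ℝ) * (2 * p) ^ (d + 2) := by positivity
        nlinarith
      calc (C : ℝ) * (2 * p) ^ (d + 2) * x ^ ((1 : ℝ) / 2000) * (96 * r * q)
          = x ^ ((1 : ℝ) / 2000) * (96 * (r : ℝ) * q * ((C : ℝ) * (2 * p) ^ (d + 2))) := by ring
        _ ≤ x ^ ((1 : ℝ) / 2000) * x ^ ((3 : ℝ) / 4000) := mul_le_mul_of_nonneg_left h7 h5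
    have h7 : (C : ℝ) * (p * t) ^ (d + 2) ≤ ((L / (3 * q) : ℕ) : ℝ) := h3.trans (h6.trans hLq)
    exact_mod_cast h7
  set Q : ℕ := ⌈(2 : ℝ) ^ y⌉₊ with hQ
  have hQ1 : (Q : ℝ) ≤ 2 ^ y + 1 := (Nat.ceil_lt_add_one (by positivity)).le
  have hM2 : (M : ℝ) ^ 2 ≤ x := by
    have h1 : (M : ℝ) ^ 2 * 1 ≤ M ^ 2 * (7 * (r : ℝ) ^ 2) := by
      refine mul_le_mul_of_nonneg_left ?_ (by positivity)
      nlinarith
    have h2 : 7 * (r : ℝ) ^ 2 * M ^ 2 ≤ x := by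
      have h2' : ((7 * r ^ 2 * M ^ 2 : ℕ) : ℝ) ≤ ((N : ℕ) : ℝ) := Nat.cast_le.2 hM7
      push_cast at h2'
      exact h2'
    linarith
  exact ⟨M, L, t, Q, by omega, by omega, hM7, hL8, hL400, ht3, hlen, cq_expo hC hx1 hε0 hy hy1 hY hQ1 hM2 ht2, Nat.le_ceil _⟩

end ACpFrege
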