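import Pool.Agent.H16.CQ.Cells

/-!
helper16 (project MP_28250c_CQ): the local reduction from the Tseitin equations `ASM M q` to `CountCNF r N`, `r ∣ q`.
-/

set_option autoImplicit false
open Finset

namespace ACpFrege

open ACpB

section dec

variable {M q n : ℕ} [NeZero q]

/-- Extension of a point by `false`. -/
def ext (x : Pt n) (v : ℕ) : Bool := if h : v < n then x ⟨v, h⟩ else false

open Classical in
/-- Some residue with the property `P`, or 0. -/
noncomputable def pkz (q : ℕ) (P : ZMod q → Prop) : ZMod q := if h : ∃ j : ZMod q, P j then h.choose else 0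

/-- The value of the variable `ν` at the point `x`. -/
noncomputable def dcd (q : ℕ) {M n : ℕ} (x : Pt n) (ν : Vr M) : ZMod q := pkz q fun j => ext x (bvar q ν j) = true

theorem dcd_congr {x y : Pt n} {ν : Vr M} (h : ∀ j : ZMod q, ext x (bvar q ν j) = ext y (bvar q ν j)) : dcd q x ν = dcd q y ν := by
  unfold dcd
  congr 1
  funext j
  rw [h]

/-- The Boolean variables of the variables in `V`. -/
noncomputable def bts (q : ℕ) {M : ℕ} [NeZero q] (V : Finset (Vr M)) : Finset (Fin (nv M q)) :=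
  (V ×ˢ (Finset.univ : Finset (ZMod q))).image fun z => ⟨bvar q z.1 z.2, bvar_lt z.1 z.2⟩

theorem bts_card (V : Finset (Vr M)) : (bts q V).card ≤ V.card * q := by
  unfold bts
  refine Finset.card_image_le.trans ?_
  rw [Finset.card_product, Finset.card_univ, ZMod.card]

theorem mem_bts {V : Finset (Vr M)} {ν : Vr M} (h : ν ∈ V) (j : ZMod q) : (⟨bvar q ν j, bvar_lt ν j⟩ : Fin (nv M q)) ∈ bts q V :=
  Finset.mem_image.2 ⟨(ν, j), Finset.mem_product.2 ⟨h, Finset.mem_univ _⟩, rfl⟩

theorem dcd_bts {V : Finset (Vr M)} {x y : Pt (nv M q)} (h : ∀ i ∈ bts q V, x i = y i) {ν : Vr M} (hν : ν ∈ V) :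
    dcd q x ν = dcd q y ν := by
  refine dcd_congr fun j => ?_
  unfold ext
  rw [dif_pos (bvar_lt ν j), dif_pos (bvar_lt ν j)]
  exact h _ (mem_bts hν j)

variable {V : Finset (Vr M)} {x : Pt (nv M q)}

/-- A clause whose variables belong to `V` is satisfied. -/
theorem sat_cl (hx : SatOn (ASM M q) (bts q V) x) {C : List Lit} (hC : C ∈ ASM M q)
    (hv : ∀ l ∈ C, ∃ ν ∈ V, ∃ j : ZMod q, l.1 = bvar q ν j) : ∃ l ∈ C, ext x l.1 = l.2 := by
  obtain ⟨l, hl, i, _, hil, hxi⟩ := hx C hC (by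
    intro l hl
    obtain ⟨ν, hν, j, hj⟩ := hv l hl
    exact ⟨_, mem_bts hν j, hj.symm⟩)
  refine ⟨l, hl, ?_⟩
  have hlt : l.1 < nv M q := by rw [← hil]; exact i.isLt
  unfold ext
  rw [dif_pos hlt]
  have : (⟨l.1, hlt⟩ : Fin (nv M q)) = i := Fin.ext hil.symm
  rw [this]
  exact hxi

theorem mem_allVr (ν : Vr M) : ν ∈ allV M := by
  unfold allV
  rcases ν with ⟨u, v⟩ | ⟨v, t⟩
  · exact List.mem_append_left _ (List.mem_flatMap.2 ⟨u, List.mem_finRange u, List.mem_map.2 ⟨v, List.mem_finRange v, rfl⟩⟩)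
  · exact List.mem_append_right _ (List.mem_flatMap.2 ⟨v, List.mem_finRange v, List.mem_map.2 ⟨t, List.mem_finRange t, rfl⟩⟩)

theorem oneC_sub (ν : Vr M) {C : List Lit} (h : C ∈ oneC q ν) : C ∈ ASM M q := by
  unfold ASM
  exact List.mem_append_left _ (List.mem_append_left _ (List.mem_append_left _ (List.mem_flatMap.2 ⟨ν, mem_allVr ν, h⟩)))

theorem dcd_true (hx : SatOn (ASM M q) (bts q V) x) {ν : Vr M} (hν : ν ∈ V) : ext x (bvar q ν (dcd q x ν)) = true := by
  have h1 : ((vals q).map fun j => (bvar q ν j, true)) ∈ ASM M q := oneC_sub ν List.mem_cons_self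
  obtain ⟨l, hl, hlx⟩ := sat_cl hx h1 (by
    intro l hl
    obtain ⟨j, _, rfl⟩ := List.mem_map.1 hl
    exact ⟨ν, hν, j, rfl⟩)
  obtain ⟨j, _, rfl⟩ := List.mem_map.1 hl
  have h2 : ∃ j : ZMod q, ext x (bvar q ν j) = true := ⟨j, hlx⟩
  unfold dcd pkz
  rw [dif_pos h2]
  exact h2.choose_spec

theorem dcd_unique (hx : SatOn (ASM M q) (bts q V) x) {ν : Vr M} (hν : ν ∈ V) {j : ZMod q} (hj : ext x (bvar q ν j) = true) :
    dcd q x ν = j := by
  by_contra hne
  have h0 := dcd_true hx hν
  have h1 : [(bvar q ν j, false), (bvar q ν (dcd q x ν), false)] ∈ ASM M q := by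
    refine oneC_sub ν (List.mem_cons_of_mem _ (List.mem_flatMap.2 ⟨j, mem_vals j, List.mem_map.2 ⟨dcd q x ν, ?_, rfl⟩⟩))
    rw [List.mem_filter]
    refine ⟨mem_vals _, decide_eq_true ?_⟩
    intro h
    exact hne (ZMod.val_injective q h)
  obtain ⟨l, hl, hlx⟩ := sat_cl hx h1 (by
    intro l hl
    rcases List.mem_cons.1 hl with rfl | hl
    · exact ⟨ν, hν, j, rfl⟩
    · rcases List.mem_cons.1 hl with rfl | hl
      · exact ⟨ν, hν, _, rfl⟩
      · simp at hl)
  rcases List.mem_cons.1 hl with rfl | hl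
  · simp only at hlx
    rw [hj] at hlx
    exact absurd hlx (by decide)
  · rcases List.mem_cons.1 hl with rfl | hl
    · simp only at hlx
      rw [h0] at hlx
      exact absurd hlx (by decide)
    · simp at hl

theorem dcd_cst (hx : SatOn (ASM M q) (bts q V) x) {ν : Vr M} (hν : ν ∈ V) {c : ZMod q} (h : ∀ C ∈ cstC q ν c, C ∈ ASM M q) :
    dcd q x ν = c := by
  have h1 : [(bvar q ν c, true)] ∈ ASM M q := h _ (by simp [cstC])
  obtain ⟨l, hl, hlx⟩ := sat_cl hx h1 (by
    intro l hl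
    rw [List.mem_singleton] at hl
    exact ⟨ν, hν, c, by rw [hl]⟩)
  rw [List.mem_singleton] at hl
  rw [hl] at hlx
  exact dcd_unique hx hν hlx

theorem dcd_add (hx : SatOn (ASM M q) (bts q V) x) {ν₁ ν₂ ν₃ : Vr M} (h1 : ν₁ ∈ V) (h2 : ν₂ ∈ V) (h3 : ν₃ ∈ V)
    (h : ∀ C ∈ addC q ν₁ ν₂ ν₃, C ∈ ASM M q) : dcd q x ν₁ + dcd q x ν₂ = dcd q x ν₃ := by
  by_contra hne
  have g1 := dcd_true hx h1
  have g2 := dcd_true hx h2
  have g3 := dcd_true hx h3
  have h4 : [(bvar q ν₁ (dcd q x ν₁), false), (bvar q ν₂ (dcd q x ν₂), false), (bvar q ν₃ (dcd q x ν₃), false)] ∈ ASM M q := by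
    refine h _ ?_
    unfold addC
    refine List.mem_flatMap.2 ⟨_, mem_vals _, List.mem_flatMap.2 ⟨_, mem_vals _, List.mem_map.2 ⟨dcd q x ν₃, ?_, rfl⟩⟩⟩
    rw [List.mem_filter]
    refine ⟨mem_vals _, decide_eq_true ?_⟩
    intro h5
    exact hne (ZMod.val_injective q h5).symm
  obtain ⟨l, hl, hlx⟩ := sat_cl hx h4 (by
    intro l hl
    rcases List.mem_cons.1 hl with rfl | hl
    · exact ⟨ν₁, h1, _, rfl⟩
    · rcases List.mem_cons.1 hl with rfl | hl
      · exact ⟨ν₂, h2, _, rfl⟩
      · rcases List.mem_cons.1 hl with rfl | hl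
        · exact ⟨ν₃, h3, _, rfl⟩
        · simp at hl)
  rcases List.mem_cons.1 hl with rfl | hl
  · simp only at hlx
    rw [g1] at hlx
    exact absurd hlx (by decide)
  · rcases List.mem_cons.1 hl with rfl | hl
    · simp only at hlx
      rw [g2] at hlx
      exact absurd hlx (by decide)
    · rcases List.mem_cons.1 hl with rfl | hl
      · simp only at hlx
        rw [g3] at hlx
        exact absurd hlx (by decide)
      · simp at hl

theorem cst_sub (v : Fin M) : (∀ C ∈ cstC q (.inl (v, v)) 0, C ∈ ASM M q) ∧ (∀ C ∈ cstC q (.inr (v, 0)) 0, C ∈ ASM M q) ∧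
    ∀ C ∈ cstC q (.inr (v, Fin.last M)) (cM q v), C ∈ ASM M q := by
  have h : ∀ C ∈ cstC q (.inl (v, v)) 0 ++ cstC q (.inr (v, 0)) 0 ++ cstC q (.inr (v, Fin.last M)) (cM q v), C ∈ ASM M q := by
    intro C hC
    unfold ASM
    exact List.mem_append_left _ (List.mem_append_left _ (List.mem_append_right _
      (List.mem_flatMap.2 ⟨v, List.mem_finRange v, hC⟩)))
  exact ⟨fun C hC => h C (List.mem_append_left _ (List.mem_append_left _ hC)),
    fun C hC => h C (List.mem_append_left _ (List.mem_append_right _ hC)), fun C hC => h C (List.mem_append_right _ hC)⟩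

theorem add_sub (u v : Fin M) : ∀ C ∈ addC q (.inl (u, v)) (.inl (v, u)) (.inr (u, 0)), C ∈ ASM M q := by
  intro C hC
  unfold ASM
  exact List.mem_append_left _ (List.mem_append_right _ (List.mem_flatMap.2 ⟨u, List.mem_finRange u,
    List.mem_flatMap.2 ⟨v, List.mem_finRange v, hC⟩⟩))

theorem add_sub' (v t : Fin M) : ∀ C ∈ addC q (.inr (v, t.castSucc)) (.inl (v, t)) (.inr (v, t.succ)), C ∈ ASM M q := by
  intro C hC
  unfold ASM
  exact List.mem_append_right _ (List.mem_flatMap.2 ⟨v, List.mem_finRange v,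
    List.mem_flatMap.2 ⟨t, List.mem_finRange t, hC⟩⟩)

variable {r : ℕ} [NeZero r] [NeZero M]

/-- The values modulo `r`. -/
noncomputable def vlr (q r : ℕ) {M n : ℕ} (h : r ∣ q) (x : Pt n) (ν : Vr M) : ZMod r := ZMod.castHom h (ZMod r) (dcd q x ν)

theorem eqn_of_sat (hrq : r ∣ q) (P : Place M) (hx : SatOn (ASM M q) (bts q (pvr P)) x) : Eqn (vlr q r hrq x) P := by
  cases P with
  | node v t =>
      simp only [Eqn, vlr]
      rw [← map_add, dcd_add hx (by simp [pvr]) (by simp [pvr]) (by simp [pvr]) (add_sub' v t)]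
  | edge u v =>
      simp only [Eqn, vlr]
      by_cases h : u = v
      · subst h
        rw [if_pos rfl, dcd_cst hx (by simp [pvr]) (cst_sub u).1, map_zero]
      · rw [if_neg h, ← map_add, dcd_add hx (by simp [pvr]) (by simp [pvr]) (by simp [pvr]) (add_sub u v),
          dcd_cst hx (by simp [pvr]) (cst_sub u).2.1, map_zero]
  | start v =>
      simp only [Eqn, vlr]
      rw [dcd_cst hx (by simp [pvr]) (cst_sub v).2.1, map_zero]
  | stop v =>
      simp only [Eqn, vlr]
      rw [dcd_cst hx (by simp [pvr]) (cst_sub v).2.2]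
      unfold cM
      by_cases h : v = 0
      · rw [if_pos h, if_pos (by rw [h]; rfl), map_one]
      · rw [if_neg h, if_neg, map_zero]
        intro h2
        exact h (Fin.ext h2)

end dec

/-- The reduction: for `N = c (2 r |Vr M| + 1) + k r`; every point is taken `s` times. -/
theorem as_red {M q r c k N s : ℕ} [NeZero q] [NeZero r] [NeZero M] [NeZero s] (hrq : r ∣ q)
    (hN : c * ((M * M + M * (M + 1)) * (2 * r) + 1) + k * r = N) :
    ∃ σ : Fin (2 ^ (s * N)) → Pt (nv M q) → Bool,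
      LocRed (nv M q) (2 ^ (s * N)) (ASM M q) (CountCNF (s * r) (s * N)) σ (3 * q) := by
  classical
  have hcard : Fintype.card (Fin s × PB M r c k) = s * N := by
    rw [Fintype.card_prod, Fintype.card_sum, Fintype.card_prod, Fintype.card_prod, Fintype.card_option, Fintype.card_prod,
      Fintype.card_prod, Fintype.card_sum, Fintype.card_prod, Fintype.card_prod, Fintype.card_fin, Fintype.card_fin,
      Fintype.card_fin, Fintype.card_fin, Fintype.card_fin, Fintype.card_fin, Fintype.card_bool, hN]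
  let ε : Fin s × PB M r c k ≃ Fin (s * N) := Fintype.equivFinOfCardEq hcard
  -- cells of numbers
  let cell : Pt (nv M q) → ℕ → Option (LB M c k) := fun x i =>
    if h : i < s * N then some (cellB (vlr q r hrq x) (ε.symm ⟨i, h⟩).2) else none
  let S : ℕ → Finset (Fin (nv M q)) := fun i => if h : i < s * N then bts q (dvr (ε.symm ⟨i, h⟩).2) else ∅
  refine ⟨sgm (s * r) (s * N) cell, count_red (Nat.mul_pos (NeZero.one_le) (NeZero.one_le)) cell S ?_ ?_ ?_⟩
  · intro i hi
    simp only [S, hi, dif_pos]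
    exact (bts_card _).trans (Nat.mul_le_mul_right q (dvr_card _))
  · intro i hi x y hxy
    simp only [S, hi, dif_pos] at hxy
    have hval : ∀ ν ∈ dvr (ε.symm ⟨i, hi⟩).2, vlr q r hrq x ν = vlr q r hrq y ν := by
      intro ν hν
      unfold vlr
      rw [dcd_bts hxy hν]
    ext j
    rw [mem_cls, mem_cls]
    refine and_congr_right fun hj => ?_
    simp only [cell, hi, hj, dif_pos, Option.some.injEq]
    exact cellB_congr _ hval _
  · intro i hi x hx
    simp only [S, hi, dif_pos] at hx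
    have h1 : (cls (s * N) (cell x) i).card =
        ((Finset.univ : Finset (Fin s)) ×ˢ (Finset.univ.filter fun z' : PB M r c k =>
          cellB (vlr q r hrq x) z' = cellB (vlr q r hrq x) (ε.symm ⟨i, hi⟩).2)).card := by
      symm
      refine Finset.card_bij (fun z _ => (ε z).val) ?_ ?_ ?_
      · intro z hz
        rw [Finset.mem_product, Finset.mem_filter] at hz
        rw [mem_cls]
        refine ⟨(ε z).isLt, ?_⟩
        simp only [cell, hi, (ε z).isLt, dif_pos, Option.some.injEq, Fin.eta, Equiv.symm_apply_apply]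
        exact hz.2.2
      · intro z _ z' _ h
        exact ε.injective (Fin.ext h)
      · intro j hj
        rw [mem_cls] at hj
        obtain ⟨hjN, hj2⟩ := hj
        simp only [cell, hi, hjN, dif_pos, Option.some.injEq] at hj2
        exact ⟨ε.symm ⟨j, hjN⟩, Finset.mem_product.2 ⟨Finset.mem_univ _, Finset.mem_filter.2 ⟨Finset.mem_univ _, hj2⟩⟩,
          by rw [Equiv.apply_symm_apply]⟩
    rw [h1, Finset.card_product, Finset.card_univ, Fintype.card_fin]
    refine Nat.mul_dvd_mul_left s (cls_dvd _ _ ?_)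
    rintro ⟨o, ho⟩
    refine eqn_of_sat hrq _ ?_
    have h2 : pvr (mpl (ε.symm ⟨i, hi⟩).2) = dvr (ε.symm ⟨i, hi⟩).2 := by
      rw [ho]
      rcases o with ⟨a, _ | ⟨ν, b, t⟩⟩ <;> rfl
    rw [h2]
    exact hx

end ACpFrege
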