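import Pool.Agent.H16.CQ.Defs
import Pool.Agent.H98.AF.ASound

/-!
helper16 (project MP_28250c_CQ): Theorem A for CNFs with clauses of any width (adapted from helper98's `lines_ok` and `main_A`).
-/

set_option autoImplicit false
open Finset

namespace ACpFrege

variable {K : Type} [Field K] {E : Type} [AddCommGroup E] [Module K E] {n : ℕ} {p : ℕ}

/-- The formula of a clause has the value 1 on a vector which respects it, wide version. -/
theorem clause_okW [Fact p.Prime] [CharP K p] (s : Slow K E n) {t e T : ℕ} {f : E} (hf : f ∈ s.M 0) (C : List Lit)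
    (hC : ∀ m ∈ s.M T, (∀ l ∈ C, s.lit l m = m) → m = 0) (hR : s.Resp t e f (clauseFm C : Fm p))
    (hP : s.h t e (clauseFm C : Fm p) ∈ Dg K n T) (hL : T + 1 ≤ s.L) : s.Z f (1 - s.h t e (clauseFm C : Fm p)) := by
  have hP1 : 1 - s.h t e (clauseFm C : Fm p) ∈ Dg K n T := Submodule.sub_mem _ (Dg_one _) hP
  have hmem : s.act (1 - s.h t e (clauseFm C : Fm p)) f ∈ s.M T := by
    have := act_mem s hf hP1 (by omega)
    rwa [zero_add] at this
  refine hC _ hmem ?_
  intro l hl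
  have h1 : s.Z f ((1 - s.h t e (clauseFm C : Fm p)) * s.h t e (litFm p l)) := by
    have hfl : s.h t e (litFm p l) ∈
        s.fl t e true (C.map fun l : Lit => if l.2 then (Fm.var l.1 : Fm p) else .neg (.var l.1)) := by
      rw [mem_fl]
      refine ⟨litFm p l, List.mem_map.2 ⟨l, hl, rfl⟩, ?_⟩
      unfold litFm
      by_cases h : l.2 = true
      · rw [if_pos h, hl_var]; exact List.mem_singleton.2 rfl
      · rw [if_neg h, hl_neg, h_neg]; exact List.mem_singleton.2 rfl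
    have hR' : s.Resp t e f (cnL true (C.map fun l : Lit => if l.2 then (Fm.var l.1 : Fm p) else .neg (.var l.1))) := hR
    have h2 := resp_cnL s t e f true _ hR' hfl
    simpa [pl, clauseFm] using h2
  rw [lit_act (p := p) s t e l, act_mul s hf (Submodule.sub_mem _ (Dg_one 1) (lit_dg s t e l)) hP1 (by omega), sub_mul, one_mul,
    mul_comm, act_sub, LinearMap.sub_apply]
  unfold Slow.Z at h1
  rw [h1, sub_zero]

private theorem Wide_TA [Fact p.Prime] (S : List (Rule p)) {t d : ℕ} (ht : 1 ≤ t) :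
    p * (t * (p * (t * p) ^ d)) ≤ TA S t d ∧ 1 ≤ (t * p) ^ d ∧ 4 * (t * p) ^ d ≤ p * (t * (p * (t * p) ^ d)) := by
  have hp := (Fact.out : p.Prime).two_le
  have hS : 1 ≤ sysC S := by unfold sysC; omega
  refine ⟨?_, one_le_e ht, ?_⟩
  · unfold TA
    exact Nat.le_mul_of_pos_left _ hS
  · calc 4 * (t * p) ^ d = 2 * (1 * (2 * (t * p) ^ d)) := by ring
      _ ≤ p * (t * (p * (t * p) ^ d)) :=
        Nat.mul_le_mul hp (Nat.mul_le_mul ht (Nat.mul_le_mul_right _ hp))

private theorem Wide_sysC {p : ℕ} {S : List (Rule p)} {R : Rule p} (hR : R ∈ S) :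
    R.mvs.length + 3 * R.sqs.length ≤ sysC S := by
  unfold sysC
  have h1 : R.mvs.length + 3 * R.sqs.length ∈ S.map fun R : Rule p => R.mvs.length + 3 * R.sqs.length :=
    List.mem_map.2 ⟨R, hR, rfl⟩
  have h2 := List.single_le_sum (l := S.map fun R : Rule p => R.mvs.length + 3 * R.sqs.length) (fun x _ => Nat.zero_le x) _ h1
  omega

/-- All lines have value 1 on a vector which respects all gates, wide version. -/
theorem lines_okW [Fact p.Prime] [CharP K p] (s : Slow K E n) {t e d : ℕ} (ht : 1 ≤ t) {f : E} (hf : f ∈ s.M 0)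
    (S : List (Rule p)) (hS : ∀ R ∈ S, R.Sound) (F : CNF)
    (hF' : ∀ C ∈ F, ∀ m ∈ s.M ((t * p) ^ d), (∀ l ∈ C, s.lit l m = m) → m = 0) (π : List (Fm p)) (hd : ∀ A ∈ π, A.dep 0 ≤ d)
    (Λ : List (Fm p)) (h1 : ∀ A ∈ π, ∀ B ∈ A.subs, B ∈ Λ) (hR : ∀ B ∈ Λ, s.Resp t e f B)
    (h2 : ∀ (i : ℕ) (h : i < π.length), (∃ C ∈ F, π[i] = clauseFm C) ∨
        ∃ R ∈ S, ∃ (u : ℕ → Fm p) (G : ℕ → List (Fm p)), R.concl.inst u G = [π[i]] ∧
          (∀ P ∈ R.prem, ∀ B ∈ P.inst u G, B ∈ π.take i) ∧ ∀ j ∈ R.sqs, ∀ k, cnL k (G j) ∈ Λ)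
    (hL : 4 * TA S t d ≤ s.L) : ∀ A ∈ π, s.Z f (1 - s.h t e A) := by
  obtain ⟨hT1, hT2, hT3⟩ := Wide_TA (p := p) S (d := d) ht
  have hOk : ∀ A ∈ π, s.Ok t e d f A := fun A hA B hB => ⟨hR B (h1 A hA B hB), (dep_subs hB).trans (hd A hA)⟩
  have key : ∀ (i : ℕ) (h : i < π.length), s.Z f (1 - s.h t e π[i]) := by
    intro i
    induction i using Nat.strong_induction_on with
    | _ i ih =>
      intro h
      have hi : π[i] ∈ π := List.getElem_mem h
      rcases h2 i h with ⟨C, hC, hCi⟩ | ⟨R, hRS, u, G, h3, h4, h5⟩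
      · rw [hCi]
        rw [hCi] at hi
        refine clause_okW (T := (t * p) ^ d) s hf C (hF' C hC) (hR _ (h1 _ hi _ (subs_self _))) (deg_h s e ht (hd _ hi)) ?_
        omega
      · have hc : ∀ A ∈ R.concl.inst u G, s.Ok t e d f A := by
          intro A hA
          rw [h3, List.mem_singleton] at hA
          rw [hA]
          exact hOk _ hi
        have hsc := Wide_sysC hRS
        refine rule_ok (T := TA S t d) s ht hf R (hS R hRS) u G
          (fun P hP A hA => hOk _ (List.mem_of_mem_take (h4 P hP A hA))) hc (fun j hj k => hR _ (h5 j hj k)) ?_ ?_ hL ?_ _ ?_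
        · unfold TA
          exact Nat.mul_le_mul_right _ hsc
        · have h6 : t * (p * (t * p) ^ d) ≤ p * (t * (p * (t * p) ^ d)) :=
            Nat.le_mul_of_pos_left _ (Fact.out : p.Prime).pos
          omega
        · intro P hP A hA
          have h6 := h4 P hP A hA
          rw [List.mem_take_iff_getElem] at h6
          obtain ⟨j, hj, rfl⟩ := h6
          exact ih j (by omega) (by omega)
        · rw [h3]
          exact List.mem_singleton.2 rfl
  intro A hA
  obtain ⟨i, hi, rfl⟩ := List.mem_iff_getElem.1 hA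
  exact key i hi

theorem main_AW (p : ℕ) [Fact p.Prime] (S : List (Rule p)) (hS : ∀ R ∈ S, R.Sound) (d n L A t w : ℕ) (ht : 1 ≤ t) (F : CNF)
    (hs : HasSlowW p n F w L A) (hL : 4 * TA S t d + w ≤ L) (π : List (Fm p)) (hπ : Refutes S d F π) :
    3 ^ t ≤ 3 * sysC S * psize π * (2 ^ t * A) := by
  obtain ⟨K, _, _, E, _, _, _, s, hsL, h0, hM, hcl⟩ := hs
  subst hsL
  obtain ⟨hT1, hT2, hT3⟩ := Wide_TA (p := p) S (d := d) ht
  by_contra hlt
  rw [not_le] at hlt
  obtain ⟨Λ, hlen, hsub, hdep, hdata⟩ := gates_ex S d F π hπ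
  have hp := (Fact.out : p.Prime).two_le
  have hte : p * (t * (p * (t * p) ^ d)) ≤ s.L := by omega
  have h7 : t * (t * p) ^ d ≤ p * (t * (p * (t * p) ^ d)) := by
    calc t * (t * p) ^ d = 1 * (t * (1 * (t * p) ^ d)) := by ring
      _ ≤ p * (t * (p * (t * p) ^ d)) :=
        Nat.mul_le_mul (by omega) (Nat.mul_le_mul_left _ (Nat.mul_le_mul_right _ (by omega)))
  have h8 : (t + 4) * (p * (t * p) ^ d) ≤ 4 * (p * (t * (p * (t * p) ^ d))) := by
    have h9 : (t + 4) * (p * (t * p) ^ d) ≤ (4 * (p * t)) * (p * (t * p) ^ d) := by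
      refine Nat.mul_le_mul_right _ ?_
      have h10 : 2 * t ≤ p * t := Nat.mul_le_mul_right _ hp
      omega
    refine h9.trans (le_of_eq ?_)
    ring
  have hfin : Module.finrank K (s.M (t * (t * p) ^ d)) ≤ A * Module.finrank K (s.M 0) :=
    (Submodule.finrank_mono (M_le s (by omega) le_rfl)).trans hM
  obtain ⟨f, hf, hf0, hfR⟩ := pick s (t := t) (e := (t * p) ^ d) Λ (fun k l h => deg_fl s _ ht (hdep k l h) k) (by omega) (by
    calc Λ.length * 2 ^ t * Module.finrank K (s.M (t * (t * p) ^ d))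
        ≤ (3 * sysC S * psize π) * 2 ^ t * (A * Module.finrank K (s.M 0)) :=
          Nat.mul_le_mul (Nat.mul_le_mul_right _ hlen) hfin
      _ = 3 * sysC S * psize π * (2 ^ t * A) * Module.finrank K (s.M 0) := by ring
      _ < 3 ^ t * Module.finrank K (s.M 0) := Nat.mul_lt_mul_of_pos_right hlt h0)
  have hlines := lines_okW (e := (t * p) ^ d) s ht hf S hS F
    (fun C hC m hm hl => hcl C hC ((t * p) ^ d) (by omega) m hm hl) π hπ.1 Λ hsub hfR hdata (by omega)
  have h11 := hlines _ hπ.2.2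
  rw [bot_val, sub_zero] at h11
  exact hf0 (Z_one s h11)

/-- Theorem A for wide clauses, uniform in the depth. -/
theorem outAW (p : ℕ) [Fact p.Prime] (S : List (Rule p)) (hS : ∀ R ∈ S, R.Sound) (w : ℕ) : ∃ C : ℕ,
    ∀ (d n : ℕ) (F : CNF) (L A N t : ℕ), HasSlowW p n F w L A → 1 ≤ t → C * (p * t) ^ (d + 2) ≤ L → N * C * A * 2 ^ t < 3 ^ t →
      ∀ π : List (Fm p), Refutes S d F π → N < psize π := by
  refine ⟨4 * sysC S + w, ?_⟩
  intro d n F L A N t hs ht hL hN π hπ
  have hp := (Fact.out : p.Prime).two_le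
  have hpt : 1 ≤ (p * t) ^ (d + 2) := Nat.one_le_pow _ _ (Nat.mul_pos (by omega) ht)
  have h1 : 4 * TA S t d + w ≤ L := by
    refine le_trans ?_ hL
    rw [add_mul]
    have h2 : 4 * TA S t d ≤ 4 * sysC S * (p * t) ^ (d + 2) := by
      unfold TA
      have h3 : p * (t * (p * (t * p) ^ d)) ≤ (p * t) ^ (d + 2) := by
        calc p * (t * (p * (t * p) ^ d)) = (p * t) * (p * 1) * (p * t) ^ d := by rw [mul_comm t p]; ring
          _ ≤ (p * t) * (p * t) * (p * t) ^ d :=
            Nat.mul_le_mul_right _ (Nat.mul_le_mul_left _ (Nat.mul_le_mul_left _ ht))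
          _ = (p * t) ^ (d + 2) := by ring
      calc 4 * (sysC S * (p * (t * (p * (t * p) ^ d)))) ≤ 4 * (sysC S * (p * t) ^ (d + 2)) :=
            Nat.mul_le_mul_left _ (Nat.mul_le_mul_left _ h3)
        _ = 4 * sysC S * (p * t) ^ (d + 2) := by ring
    have h4 : w ≤ w * (p * t) ^ (d + 2) := Nat.le_mul_of_pos_right _ hpt
    omega
  have h5 := main_AW p S hS d n L A t w ht F hs h1 π hπ
  by_contra hle
  rw [not_lt] at hle
  have hS1 : 3 * sysC S ≤ 4 * sysC S + w := by omega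
  have h6 : 3 * sysC S * psize π * (2 ^ t * A) ≤ N * (4 * sysC S + w) * A * 2 ^ t := by
    calc 3 * sysC S * psize π * (2 ^ t * A) ≤ (4 * sysC S + w) * N * (2 ^ t * A) :=
          Nat.mul_le_mul_right _ (Nat.mul_le_mul hS1 hle)
      _ = N * (4 * sysC S + w) * A * 2 ^ t := by ring
  omega

end ACpFrege
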