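import Pool.Agent.H16.CQ.Local
import Pool.Agent.H16.CQ.Red
import Pool.Agent.H16.CQ.Wide
import Pool.Agent.H16.CQ.Facts
import Pool.Agent.H16.CQ.Num

/-!
helper16 (project MP_28250c_CQ): final assembly.
-/

set_option autoImplicit false

namespace ACpFrege

open ACpB

/-- The Tseitin equations mod `q` have slow modules (Parts B and C). -/
def FamS (p q : ℕ) : Prop :=
  ∃ M₀ : ℕ, ∀ M ≥ M₀, ∀ L : ℕ, 8 ≤ L → (2 * L + 4) ^ 400 ≤ M → HasSlow p (nv M q) (ASM M q) L (M ^ 2)

theorem ASM_lenq {M q : ℕ} : ∀ C ∈ ASM M q, C.length ≤ max q 3 := by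
  intro C hC
  have h1 : ∀ (ν : Vr M), ∀ C ∈ oneC q ν, C.length ≤ max q 3 := by
    intro ν C hC
    unfold oneC at hC
    rcases List.mem_cons.1 hC with rfl | hC
    · rw [List.length_map]
      have hv : vals q = (List.range q).map (fun i : ℕ => (i : ZMod q)) := by
        unfold vals
        simp [List.map_eq_flatMap]
      rw [hv, List.length_map, List.length_range]
      exact le_max_left _ _
    · obtain ⟨j, _, hC⟩ := List.mem_flatMap.1 hC
      obtain ⟨j', _, rfl⟩ := List.mem_map.1 hC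
      exact le_trans (by simp) (le_max_right _ _)
  have h2 : ∀ (ν : Vr M) (c : ZMod q), ∀ C ∈ cstC q ν c, C.length ≤ max q 3 := by
    intro ν c C hC
    unfold cstC at hC
    rw [List.mem_singleton] at hC
    rw [hC]
    exact le_trans (by simp) (le_max_right _ _)
  have h3 : ∀ (a b c : Vr M), ∀ C ∈ addC q a b c, C.length ≤ max q 3 := by
    intro a b c C hC
    unfold addC at hC
    obtain ⟨i, _, hC⟩ := List.mem_flatMap.1 hC
    obtain ⟨j, _, hC⟩ := List.mem_flatMap.1 hC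
    obtain ⟨k, _, rfl⟩ := List.mem_map.1 hC
    exact le_trans (by simp) (le_max_right _ _)
  unfold ASM at hC
  rcases List.mem_append.1 hC with hC | hC
  · rcases List.mem_append.1 hC with hC | hC
    · rcases List.mem_append.1 hC with hC | hC
      · obtain ⟨ν, _, hC⟩ := List.mem_flatMap.1 hC
        exact h1 ν C hC
      · obtain ⟨v, _, hC⟩ := List.mem_flatMap.1 hC
        rcases List.mem_append.1 hC with hC | hC
        · rcases List.mem_append.1 hC with hC | hC
          · exact h2 _ _ C hC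
          · exact h2 _ _ C hC
        · exact h2 _ _ C hC
    · obtain ⟨u, _, hC⟩ := List.mem_flatMap.1 hC
      obtain ⟨v, _, hC⟩ := List.mem_flatMap.1 hC
      exact h3 _ _ _ C hC
  · obtain ⟨u, _, hC⟩ := List.mem_flatMap.1 hC
    obtain ⟨v, _, hC⟩ := List.mem_flatMap.1 hC
    exact h3 _ _ _ C hC

/-- The lower bound for `Count_(sr)^(sN)`, `r` does not divide `N`, from slow modules of the Tseitin equations mod `q`, `r ∣ q`. -/
theorem count_low {p q r s : ℕ} [Fact p.Prime] (hq : 3 ≤ q) (hr : 2 ≤ r) (hs : 1 ≤ s) (hrq : r ∣ q) (h : FamS p q)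
    (S : List (Rule p)) (hS : ∀ R ∈ S, R.Sound) (d : ℕ) : ∃ N₀ : ℕ, ∀ N ≥ N₀, ¬ r ∣ N →
      ∀ π : List (Fm p), Refutes S d (CountCNF (s * r) (s * N)) π →
        (2 : ℝ) ^ ((N : ℝ) ^ ((1 : ℝ) / (4000 * (d + 2)))) ≤ psize π := by
  obtain ⟨C, hC⟩ := outAW p S hS 4
  obtain ⟨M₀, hM₀⟩ := h
  have hp := (Fact.out : p.Prime).one_lt.le
  obtain ⟨N₀, hN₀⟩ := cq_num p r q (C + 1) d M₀ hp (by omega) (by omega) (by omega)
  refine ⟨N₀, ?_⟩
  intro N hN hrN π hπ
  obtain ⟨M, L, t, Q, k1, k2, k3, k4, k5, k6, k7, k8, k9⟩ := hN₀ N hN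
  have : NeZero M := ⟨by omega⟩
  have : NeZero q := ⟨by omega⟩
  have : NeZero r := ⟨by omega⟩
  have : NeZero s := ⟨by omega⟩
  have hslow := hM₀ M k1 L k4 k5
  -- the decomposition of N
  set c := N % r with hc
  have hc0 : 1 ≤ c := by
    rcases Nat.eq_zero_or_pos c with h0 | h0
    · exact absurd (Nat.dvd_of_mod_eq_zero h0) hrN
    · exact h0
  have hcr : c < r := Nat.mod_lt _ (by omega)
  set T := (M * M + M * (M + 1)) * (2 * r) + 1 with hT
  have hcT : c * T ≤ N := by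
    refine le_trans ?_ k3
    have h1 : T ≤ 7 * r * M ^ 2 := by
      have h2 : M ≤ M ^ 2 := by nlinarith
      have h3 : 1 ≤ r * M ^ 2 := Nat.mul_pos (by omega) (by positivity)
      have h4 : r * M ≤ r * M ^ 2 := Nat.mul_le_mul_left r h2
      calc T = 4 * (r * M ^ 2) + 2 * (r * M) + 1 := by rw [hT]; ring
        _ ≤ 7 * (r * M ^ 2) := by omega
        _ = 7 * r * M ^ 2 := by ring
    calc c * T ≤ r * (7 * r * M ^ 2) := Nat.mul_le_mul hcr.le h1
      _ = 7 * r ^ 2 * M ^ 2 := by ring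
  have hdvd : r ∣ N - c * T := by
    have h1 : N - c * T = (N - c) - c * ((M * M + M * (M + 1)) * 2) * r := by
      have h2 : c * T = c + c * ((M * M + M * (M + 1)) * 2) * r := by rw [hT]; ring
      rw [h2]; omega
    rw [h1]
    exact Nat.dvd_sub (Nat.dvd_sub_mod N) (Dvd.intro_left _ rfl)
  obtain ⟨k, hk⟩ := hdvd
  have hNk : c * T + k * r = N := by
    rw [mul_comm k r, ← hk]; omega
  obtain ⟨σ, hσ⟩ := as_red (M := M) (q := q) (r := r) (c := c) (k := k) (N := N) (s := s) hrq hNk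
  have hW := hσ.slow (w := max q 3) (by omega) (by omega) (hslow.toW ASM_lenq)
  have h1 := hC d (2 ^ (s * N)) (CountCNF (s * r) (s * N)) (L / (3 * q)) (M ^ 2) Q t hW k6
    (le_trans (Nat.mul_le_mul_right _ (by omega)) k7)
    (lt_of_le_of_lt (Nat.mul_le_mul_right _ (Nat.mul_le_mul_right _ (Nat.mul_le_mul_left _ (by omega)))) k8) π hπ
  calc (2 : ℝ) ^ ((N : ℝ) ^ ((1 : ℝ) / (4000 * (d + 2)))) ≤ Q := k9
    _ ≤ psize π := by exact_mod_cast h1.le

/-- The lower bound for all moduli. -/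
theorem count_all {p : ℕ} [hp : Fact p.Prime] (h : ∀ Q : ℕ, 3 ≤ Q → Q.Coprime p → FamS p Q) (q : ℕ) (hq : 1 ≤ q)
    (S : List (Rule p)) (hS : ∀ R ∈ S, R.Sound) (d : ℕ) : ∃ N₀ : ℕ, ∀ N ≥ N₀, p ^ q.factorization p ∣ N → ¬ q ∣ N →
      ∀ π : List (Fm p), Refutes S d (CountCNF q N) π → (2 : ℝ) ^ ((N : ℝ) ^ ((1 : ℝ) / (8000 * (d + 2)))) ≤ psize π := by
  -- the decomposition of q
  set s := p ^ q.factorization p with hs
  set r := q / s with hr
  have hsr : s * r = q := Nat.ordProj_mul_ordCompl_eq_self q p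
  have hs1 : 1 ≤ s := Nat.one_le_pow _ _ hp.out.pos
  have hcop : p.Coprime r := Nat.coprime_ordCompl hp.out (by omega)
  have hr0 : r ≠ 0 := by
    intro h0
    rw [h0, mul_zero] at hsr
    omega
  rcases Nat.lt_or_ge r 2 with hr1 | hr2
  · -- q is a power of p: no N
    have hr1' : r = 1 := le_antisymm (Nat.lt_succ_iff.1 hr1) (Nat.pos_of_ne_zero hr0)
    refine ⟨0, ?_⟩
    intro N _ h1 h2
    rw [hr1', mul_one] at hsr
    rw [hsr] at h1
    exact absurd h1 h2
  · have hex : ∃ N₀ : ℕ, ∀ N ≥ N₀, ¬ r ∣ N →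
        ∀ π : List (Fm p), Refutes S d (CountCNF (s * r) (s * N)) π →
          (2 : ℝ) ^ ((N : ℝ) ^ ((1 : ℝ) / (4000 * (d + 2)))) ≤ psize π := by
      rcases Nat.lt_or_ge r 3 with hr3 | hr3
      · have hr2' : r = 2 := le_antisymm (Nat.lt_succ_iff.1 hr3) hr2
        have h4 : Nat.Coprime 4 p := by
          have h5 : Nat.Coprime 2 p := by rw [hr2'] at hcop; exact hcop.symm
          exact Nat.Coprime.pow_left 2 h5
        exact count_low (q := 4) (by omega) hr2 hs1 (by rw [hr2']; decide) (h 4 (by omega) h4) S hS d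
      · exact count_low (q := r) hr3 hr2 hs1 dvd_rfl (h r hr3 hcop.symm) S hS d
    obtain ⟨N₀, hN₀⟩ := hex
    refine ⟨max (s * N₀) (s ^ 2) + 1, ?_⟩
    intro N hN h1 h2 π hπ
    obtain ⟨N', hN'⟩ := h1
    rw [hN'] at hπ h2 hN ⊢
    have h3 : ¬ r ∣ N' := by
      intro h4
      apply h2
      rw [← hsr]
      exact Nat.mul_dvd_mul_left s h4
    have h4 : N₀ ≤ N' := by
      by_contra hlt
      rw [not_le] at hlt
      have := Nat.mul_le_mul_left s hlt.le
      omega
    have h5 : s ≤ N' := by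
      by_contra hlt
      rw [not_le] at hlt
      have := Nat.mul_le_mul_left s hlt.le
      have h6 : s * s = s ^ 2 := (pow_two s).symm
      omega
    have h6 := hN₀ N' h4 h3 π (by rw [hsr]; exact hπ)
    refine le_trans ?_ h6
    refine Real.rpow_le_rpow_of_exponent_le (by norm_num) ?_
    have h7 : ((s * N' : ℕ) : ℝ) ≤ (N' : ℝ) ^ 2 := by
      have : s * N' ≤ N' ^ 2 := by rw [pow_two]; exact Nat.mul_le_mul_right _ h5
      exact_mod_cast this
    calc ((s * N' : ℕ) : ℝ) ^ ((1 : ℝ) / (8000 * (d + 2))) ≤ ((N' : ℝ) ^ 2) ^ ((1 : ℝ) / (8000 * (d + 2))) :=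
          Real.rpow_le_rpow (Nat.cast_nonneg _) h7 (by positivity)
      _ = (N' : ℝ) ^ ((1 : ℝ) / (4000 * (d + 2))) := by
        rw [← Real.rpow_natCast, ← Real.rpow_mul (Nat.cast_nonneg _)]
        congr 1
        push_cast
        have : ((d : ℝ) + 2) ≠ 0 := by positivity
        field_simp
        norm_num

end ACpFrege
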