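import Pool.Agent.H16.CQ.Defs
import Pool.Agent.H65.AF.AAct

/-!
helper16 (project MP_28250c_CQ): local reductions carry slow modules over.
-/

set_option autoImplicit false
open Finset

namespace ACpFrege

variable {K : Type} [Field K] {E : Type} [AddCommGroup E] [Module K E] {n : ℕ}

/-- A function which depends only on the coordinates in `S` has degree at most `|S|`. -/
theorem DepOn.dg {S : Finset (Fin n)} {f : Pt n → K} (h : DepOn S f) : f ∈ Dg K n S.card := by
  classical
  have hi : ∀ T : Finset (Fin n), (∏ i ∈ S, (if i ∈ T then mono K {i} else 1 - mono K {i})) ∈ Dg K n (S.card * 1) := by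
    intro T
    refine Dg_prod _ _ fun i _ => ?_
    by_cases h : i ∈ T
    · rw [if_pos h]
      exact mono_mem _ (by simp)
    · rw [if_neg h]
      exact Submodule.sub_mem _ (Dg_one _) (mono_mem _ (by simp))
  have hx : ∀ T ∈ S.powerset, ∀ y : Pt n, (∏ i ∈ S, (if i ∈ T then mono K {i} else 1 - mono K {i})) y =
      if T = S.filter (fun i => y i = true) then 1 else 0 := by
    intro T hT y
    rw [Finset.prod_apply]
    by_cases h : T = S.filter (fun i => y i = true)
    · rw [if_pos h]
      refine Finset.prod_eq_one fun i hiS => ?_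
      by_cases h1 : y i = true
      · have : i ∈ T := by rw [h]; exact Finset.mem_filter.2 ⟨hiS, h1⟩
        simp [this, h1, mono_single]
      · have : i ∉ T := by rw [h]; intro h2; exact h1 (Finset.mem_filter.1 h2).2
        simp [this, h1, mono_single]
    · rw [if_neg h]
      have : ∃ i ∈ S, ¬ (i ∈ T ↔ y i = true) := by
        by_contra hcon
        push Not at hcon
        apply h
        ext i
        rw [Finset.mem_filter]
        constructor
        · intro hiT
          exact ⟨Finset.mem_powerset.1 hT hiT, (hcon i (Finset.mem_powerset.1 hT hiT)).1 hiT⟩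
        · intro hi2
          exact (hcon i hi2.1).2 hi2.2
      obtain ⟨i, hiS, hne⟩ := this
      refine Finset.prod_eq_zero hiS ?_
      by_cases h1 : i ∈ T
      · have h2 : ¬ y i = true := fun h3 => hne ⟨fun _ => h3, fun _ => h1⟩
        simp [h1, h2, mono_single]
      · have h2 : y i = true := by
          by_contra h3
          exact hne ⟨fun h4 => absurd h4 h1, fun h4 => absurd h4 h3⟩
        simp [h1, h2, mono_single]
  have hf : f = ∑ T ∈ S.powerset, f (fun i => decide (i ∈ T)) • (∏ i ∈ S, (if i ∈ T then mono K {i} else 1 - mono K {i})) := by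
    funext y
    rw [Finset.sum_apply]
    have h1 : ∀ T ∈ S.powerset, (f (fun i => decide (i ∈ T)) • (∏ i ∈ S, (if i ∈ T then mono K {i} else 1 - mono K {i}))) y =
        if T = S.filter (fun i => y i = true) then f y else 0 := by
      intro T hT
      rw [Pi.smul_apply, hx T hT y]
      by_cases h2 : T = S.filter (fun i => y i = true)
      · rw [if_pos h2, if_pos h2, smul_eq_mul, mul_one]
        refine h _ _ fun i hiS => ?_
        rw [h2]
        by_cases h3 : y i = true
        · rw [h3]; simp [hiS, h3]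
        · have h3' : y i = false := by simpa using h3
          rw [h3']; simp [h3']
      · rw [if_neg h2, if_neg h2, smul_zero]
    rw [Finset.sum_congr rfl h1, Finset.sum_ite_eq' S.powerset, if_pos]
    exact Finset.mem_powerset.2 (Finset.filter_subset _ _)
  rw [hf]
  refine Submodule.sum_mem _ fun T _ => Submodule.smul_mem _ _ ?_
  have := hi T
  rwa [mul_one] at this

theorem DepOn.dg' {S : Finset (Fin n)} {f : Pt n → K} (h : DepOn S f) {B : ℕ} (hB : S.card ≤ B) : f ∈ Dg K n B :=
  Dg_mono hB h.dg

/-- The 0/1 function of a Boolean function. -/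
def indb (K : Type) [Field K] {n : ℕ} (σ : Pt n → Bool) : Pt n → K := fun x => if σ x then 1 else 0

theorem indb_mul_self (σ : Pt n → Bool) : indb K σ * indb K σ = indb K σ := by
  funext x
  simp only [indb, Pi.mul_apply]
  split_ifs <;> simp

theorem DepOn.indb {S : Finset (Fin n)} {σ : Pt n → Bool} (h : DepOn S σ) : DepOn S (indb K σ) := by
  intro x y hxy
  simp only [ACpFrege.indb, h x y hxy]

theorem HasSlow.toW {p : ℕ} {F : CNF} {L A w : ℕ} (h : HasSlow p n F L A) (hw : ∀ C ∈ F, C.length ≤ w) :
    HasSlowW p n F w L A := by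
  obtain ⟨K, hK, hch, E, hE, hM, hfd, s, h1, h2, h3, h4⟩ := h
  refine ⟨K, hK, hch, E, hE, hM, hfd, s, h1, h2, h3, ?_⟩
  intro C hC j hj m hm hl
  have h5 := h4 C hC j (le_trans (Nat.add_le_add_left (hw C hC) j) hj) m hm
  have h6 : ∀ D : List Lit, (∀ l ∈ D, s.lit l m = m) → D.foldr s.lit m = m := by
    intro D
    induction D with
    | nil => intro _; rfl
    | cons l D ih =>
        intro hD
        rw [List.foldr_cons, ih fun l' hl' => hD l' (List.mem_cons_of_mem _ hl')]
        exact hD l List.mem_cons_self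
  rw [← h6 C hl]
  exact h5

/-- The function `1 - literal` of a literal, where the variable `v` stands for the Boolean function `τ v`. -/
def nlf (K : Type) [Field K] {n : ℕ} (τ : ℕ → Pt n → Bool) (l : Lit) : Pt n → K := fun x => if τ l.1 x = l.2 then 0 else 1

theorem nlf_prod (τ : ℕ → Pt n → Bool) (C : List Lit) (x : Pt n) :
    (C.map (nlf K τ)).prod x = if ∃ l ∈ C, τ l.1 x = l.2 then 0 else 1 := by
  induction C with
  | nil => simp
  | cons l C ih =>
      rw [List.map_cons, List.prod_cons, Pi.mul_apply, ih]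
      by_cases h : τ l.1 x = l.2
      · rw [if_pos (⟨l, List.mem_cons_self, h⟩ : ∃ l' ∈ l :: C, τ l'.1 x = l'.2)]
        simp [nlf, h]
      · by_cases h' : ∃ l ∈ C, τ l.1 x = l.2
        · obtain ⟨l', hl', h''⟩ := h'
          rw [if_pos (⟨l', hl', h''⟩ : ∃ l ∈ C, τ l.1 x = l.2),
            if_pos (⟨l', List.mem_cons_of_mem _ hl', h''⟩ : ∃ l' ∈ l :: C, τ l'.1 x = l'.2), mul_zero]
        · rw [if_neg h', if_neg]
          · simp [nlf, h]
          · rintro ⟨l', hl', h''⟩
            rcases List.mem_cons.1 hl' with rfl | h3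
            · exact h h''
            · exact h' ⟨l', h3, h''⟩

theorem DepOn.mul {S : Finset (Fin n)} {f g : Pt n → K} (hf : DepOn S f) (hg : DepOn S g) : DepOn S (f * g) := by
  intro x y h
  rw [Pi.mul_apply, Pi.mul_apply, hf x y h, hg x y h]

theorem DepOn.nlf_prod {S : Finset (Fin n)} {τ : ℕ → Pt n → Bool} {C : List Lit} (h : ∀ l ∈ C, DepOn S (τ l.1)) :
    DepOn S (C.map (nlf K τ)).prod := by
  intro x y hxy
  rw [ACpFrege.nlf_prod, ACpFrege.nlf_prod]
  have : (∃ l ∈ C, τ l.1 x = l.2) ↔ ∃ l ∈ C, τ l.1 y = l.2 := by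
    constructor
    · rintro ⟨l, hl, h1⟩
      exact ⟨l, hl, by rw [← h l hl x y hxy]; exact h1⟩
    · rintro ⟨l, hl, h1⟩
      exact ⟨l, hl, by rw [h l hl x y hxy]; exact h1⟩
  by_cases h1 : ∃ l ∈ C, τ l.1 x = l.2
  · rw [if_pos h1, if_pos (this.1 h1)]
  · rw [if_neg h1, if_neg fun h2 => h1 (this.2 h2)]

/-- If all the functions in the list `D` (depending only on `S`) kill `m`, the product of the `1 - f` fixes `m`. -/
theorem act_prod_fix (s : Slow K E n) {S : Finset (Fin n)} {B j : ℕ} (hB : S.card ≤ B) (hj : j + B + B ≤ s.L) {m : E} (hm : m ∈ s.M j)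
    (D : List (Pt n → K)) (hD : ∀ f ∈ D, DepOn S f) (hk : ∀ f ∈ D, s.act f m = 0) :
    DepOn S (D.map fun f => 1 - f).prod ∧ s.act (D.map fun f => 1 - f).prod m = m := by
  induction D with
  | nil =>
      rw [List.map_nil, List.prod_nil]
      refine ⟨fun _ _ _ => rfl, ?_⟩
      rw [act_one]; rfl
  | cons f D ih =>
      obtain ⟨h1, h2⟩ := ih (fun g hg => hD g (List.mem_cons_of_mem _ hg)) (fun g hg => hk g (List.mem_cons_of_mem _ hg))
      have hf := hD f List.mem_cons_self
      have hkf := hk f List.mem_cons_self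
      rw [List.map_cons, List.prod_cons]
      have h3 : DepOn S (1 - f) := by
        intro x y h
        simp only [Pi.sub_apply, Pi.one_apply, hf x y h]
      refine ⟨h3.mul h1, ?_⟩
      have h4 : (1 - f) * (D.map fun f => 1 - f).prod = (D.map fun f => 1 - f).prod - (D.map fun f => 1 - f).prod * f := by ring
      rw [h4, act_sub, LinearMap.sub_apply, h2, ← act_mul s hm (h1.dg' hB) (hf.dg' hB) hj, hkf, map_zero, sub_zero]

/-- The module given by a local substitution. -/
noncomputable def redSlow (s : Slow K E n) {n' : ℕ} (σ : Fin n' → Pt n → Bool) (B L' : ℕ) (hL : B * L' ≤ s.L)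
    (hσ : ∀ z, indb K (σ z) ∈ Dg K n B) : Slow K E n' where
  X z := s.act (indb K (σ z))
  M j := s.M (B * j)
  L := L'
  up := by
    intro j hj
    refine M_le s (Nat.mul_le_mul_left B (Nat.le_succ j)) (le_trans (Nat.mul_le_mul_left B hj) hL)
  map := by
    intro i j hj m hm
    have h1 : B * j + B ≤ s.L := le_trans (by rw [← Nat.mul_succ]; exact Nat.mul_le_mul_left B hj) hL
    exact act_mem s hm (hσ i) h1
  idem := by
    intro i j hj m hm
    have h1 : B * j + B + B ≤ s.L := by
      refine le_trans ?_ hL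
      calc B * j + B + B = B * (j + 2) := by ring
        _ ≤ B * L' := Nat.mul_le_mul_left B hj
    rw [act_mul s hm (hσ i) (hσ i) h1, indb_mul_self]
  comm := by
    intro i i' j hj m hm
    have h1 : B * j + B + B ≤ s.L := by
      refine le_trans ?_ hL
      calc B * j + B + B = B * (j + 2) := by ring
        _ ≤ B * L' := Nat.mul_le_mul_left B hj
    rw [act_mul s hm (hσ i) (hσ i') h1, act_mul s hm (hσ i') (hσ i) h1, mul_comm]

/-- Local reductions carry slow modules over. -/
theorem LocRed.slow {p n n' : ℕ} {F F' : CNF} {σ : Fin n' → Pt n → Bool} {B w L A : ℕ} (hr : LocRed n n' F F' σ B)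
    (hw : w ≤ B) (hB : 1 ≤ B) (h : HasSlowW p n F w L A) : HasSlowW p n' F' 4 (L / B) A := by
  classical
  obtain ⟨K, hK, hch, E, hE, hM, hfd, s, h1, h2, h3, h4⟩ := h
  have hL : B * (L / B) ≤ s.L := by rw [h1]; exact Nat.mul_div_le L B
  have hσ : ∀ z, indb K (σ z) ∈ Dg K n B := by
    intro z
    obtain ⟨S, hS, hd⟩ := hr.dep z
    exact hd.indb.dg' hS
  have hfin : Module.finrank K (s.M (B * (L / B))) ≤ Module.finrank K (s.M L) :=
    Submodule.finrank_mono (M_le s (Nat.mul_div_le L B) (le_of_eq h1.symm))
  refine ⟨K, hK, hch, E, hE, hM, hfd, redSlow s σ B (L / B) hL hσ, rfl, ?_, ?_, ?_⟩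
  · show 0 < Module.finrank K (s.M (B * 0))
    rw [mul_zero]; exact h2
  · show Module.finrank K (s.M (B * (L / B))) ≤ A * Module.finrank K (s.M (B * 0))
    rw [mul_zero]
    exact hfin.trans h3
  · intro C hC j hj m hm hl
    change m ∈ s.M (B * j) at hm
    obtain ⟨S, hSB, hSd, hSat⟩ := hr.cla C hC
    have hlev : B * j + B + B + B + B ≤ s.L := by
      refine le_trans ?_ hL
      calc B * j + B + B + B + B = B * (j + 4) := by ring
        _ ≤ B * (L / B) := Nat.mul_le_mul_left B hj
    -- the functions of the literals of C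
    set G : List (Pt n → K) := C.map fun l => (if h : l.1 < n' then (if l.2 then indb K (σ ⟨l.1, h⟩) else 1 - indb K (σ ⟨l.1, h⟩)) else 0)
      with hG
    have hGd : ∀ f ∈ G, DepOn S f := by
      intro f hf
      obtain ⟨l, hlC, rfl⟩ := List.mem_map.1 hf
      have hlt := hr.lt C hC l hlC
      have hd := (hSd l hlC hlt).indb (K := K)
      simp only [hlt, dif_pos]
      by_cases h5 : l.2 = true
      · simp only [h5, if_true]; exact hd
      · simp only [h5]
        intro x y hxy
        simp only [Bool.false_eq_true, if_false, Pi.sub_apply, Pi.one_apply, hd x y hxy]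
    have hGk : ∀ f ∈ G, s.act f m = 0 := by
      intro f hf
      obtain ⟨l, hlC, rfl⟩ := List.mem_map.1 hf
      have hlt := hr.lt C hC l hlC
      have h5 := hl l hlC
      simp only [Slow.lit, hlt, dif_pos] at h5
      simp only [hlt, dif_pos]
      by_cases h6 : l.2 = true
      · simp only [h6, if_true] at h5 ⊢
        change m - s.act (indb K (σ ⟨l.1, hlt⟩)) m = m at h5
        rwa [sub_eq_self] at h5
      · simp only [h6, Bool.false_eq_true, if_false] at h5 ⊢
        change s.act (indb K (σ ⟨l.1, hlt⟩)) m = m at h5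
        rw [act_sub, act_one, LinearMap.sub_apply, h5]
        simp
    obtain ⟨hG1, hG2⟩ := act_prod_fix s hSB (by omega) hm G hGd hGk
    -- the clauses inside S
    let τ : ℕ → Pt n → Bool := fun v x => if h : v < n then x ⟨v, h⟩ else false
    have hτ : ∀ i ∈ S, DepOn S (τ i.val) := by
      intro i hi x y hxy
      simp only [τ, i.isLt, dif_pos]
      exact hxy i hi
    set V : List (Pt n → K) := (F.filter fun D => ∀ l ∈ D, ∃ i ∈ S, i.val = l.1).map fun D => (D.map (nlf K τ)).prod with hV
    have hVd : ∀ f ∈ V, DepOn S f := by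
      intro f hf
      obtain ⟨D, hD, rfl⟩ := List.mem_map.1 hf
      rw [List.mem_filter] at hD
      have hD2 := of_decide_eq_true hD.2
      refine DepOn.nlf_prod fun l hl' => ?_
      obtain ⟨i, hi, hil⟩ := hD2 l hl'
      rw [← hil]; exact hτ i hi
    have hVk : ∀ f ∈ V, s.act f m = 0 := by
      intro f hf
      have hfd := hVd f hf
      obtain ⟨D, hD, rfl⟩ := List.mem_map.1 hf
      rw [List.mem_filter] at hD
      have hD2 := of_decide_eq_true hD.2
      have hmem : s.act (D.map (nlf K τ)).prod m ∈ s.M (B * j + B) := act_mem s hm (hfd.dg' hSB) (by omega)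
      refine h4 D hD.1 (B * j + B) (by rw [← h1]; omega) _ hmem ?_
      intro l hlD
      obtain ⟨i, hi, hil⟩ := hD2 l hlD
      have hln : l.1 < n := by rw [← hil]; exact i.isLt
      have hX : ∀ m' : E, s.X ⟨l.1, hln⟩ m' = s.act (mono K {⟨l.1, hln⟩}) m' := by
        intro m'; rw [act_var]
      have hdm : mono K {(⟨l.1, hln⟩ : Fin n)} ∈ Dg K n B := mono_mem _ (by simpa using hB)
      have hmul : s.act (mono K {(⟨l.1, hln⟩ : Fin n)}) (s.act (D.map (nlf K τ)).prod m) =
          s.act (mono K {(⟨l.1, hln⟩ : Fin n)} * (D.map (nlf K τ)).prod) m :=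
        act_mul s hm hdm (hfd.dg' hSB) (by omega)
      have hval : ∀ x : Pt n, τ l.1 x = x ⟨l.1, hln⟩ := by
        intro x; simp only [τ, hln, dif_pos]
      simp only [Slow.lit, hln, dif_pos]
      by_cases h6 : l.2 = true
      · simp only [h6, if_true]
        rw [hX, hmul]
        have : mono K {(⟨l.1, hln⟩ : Fin n)} * (D.map (nlf K τ)).prod = 0 := by
          funext x
          rw [Pi.mul_apply, nlf_prod, mono_single, Pi.zero_apply]
          by_cases h7 : x ⟨l.1, hln⟩ = true
          · rw [if_pos (⟨l, hlD, by rw [hval, h7, h6]⟩ : ∃ l ∈ D, τ l.1 x = l.2), mul_zero]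
          · simp [h7]
        rw [this, act_zero, LinearMap.zero_apply, sub_zero]
      · have h6' : l.2 = false := by simpa using h6
        simp only [h6', Bool.false_eq_true, if_false]
        rw [hX, hmul]
        have : mono K {(⟨l.1, hln⟩ : Fin n)} * (D.map (nlf K τ)).prod = (D.map (nlf K τ)).prod := by
          funext x
          rw [Pi.mul_apply, nlf_prod, mono_single]
          by_cases h7 : x ⟨l.1, hln⟩ = true
          · simp [h7]
          · have h7' : x ⟨l.1, hln⟩ = false := by simpa using h7
            rw [if_pos (⟨l, hlD, by rw [hval, h7', h6']⟩ : ∃ l ∈ D, τ l.1 x = l.2), mul_zero]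
        rw [this]
    obtain ⟨hV1, hV2⟩ := act_prod_fix s hSB (by omega) hm V hVd hVk
    have hVG : (V.map fun f => 1 - f).prod * (G.map fun f => 1 - f).prod = 0 := by
      funext x
      rw [Pi.mul_apply, Pi.zero_apply]
      have hpr : ∀ (D : List (Pt n → K)), (∃ f ∈ D, f x = 1) → ((D.map fun f => 1 - f).prod : Pt n → K) x = 0 := by
        intro D
        induction D with
        | nil => rintro ⟨f, hf, _⟩; simp at hf
        | cons g D ih =>
            rintro ⟨f, hf, hfx⟩
            rw [List.map_cons, List.prod_cons, Pi.mul_apply]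
            rcases List.mem_cons.1 hf with rfl | h5
            · simp [hfx]
            · rw [ih ⟨f, h5, hfx⟩, mul_zero]
      by_cases hs : SatOn F S x
      · obtain ⟨l, hlC, hlt, hlx⟩ := hSat x hs
        rw [hpr G, mul_zero]
        refine ⟨_, List.mem_map.2 ⟨l, hlC, rfl⟩, ?_⟩
        simp only [hlt, dif_pos]
        by_cases h6 : l.2 = true
        · simp only [h6, if_true, indb]
          rw [h6] at hlx
          rw [hlx]; simp
        · have h6' : l.2 = false := by simpa using h6
          simp only [h6', Bool.false_eq_true, if_false, Pi.sub_apply, Pi.one_apply, indb]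
          rw [h6'] at hlx
          rw [hlx]; simp
      · rw [hpr V, zero_mul]
        unfold SatOn at hs
        push Not at hs
        obtain ⟨D, hDF, hDS, hDx⟩ := hs
        refine ⟨_, List.mem_map.2 ⟨D, List.mem_filter.2 ⟨hDF, decide_eq_true hDS⟩, rfl⟩, ?_⟩
        rw [nlf_prod, if_neg]
        rintro ⟨l, hlD, hlx⟩
        obtain ⟨i, hi, hil⟩ := hDS l hlD
        refine hDx l hlD i hi hil ?_
        have hln : l.1 < n := by rw [← hil]; exact i.isLt
        simp only [τ, hln, dif_pos] at hlx
        have : (⟨l.1, hln⟩ : Fin n) = i := Fin.ext hil.symm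
        rw [← this]; exact hlx
    have hfinal : s.act (V.map fun f => 1 - f).prod (s.act (G.map fun f => 1 - f).prod m) =
        s.act ((V.map fun f => 1 - f).prod * (G.map fun f => 1 - f).prod) m :=
      act_mul s hm (hV1.dg' hSB) (hG1.dg' hSB) (by omega)
    rw [hG2, hV2, hVG, act_zero, LinearMap.zero_apply] at hfinal
    exact hfinal

end ACpFrege
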