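import Pool.Agent.H16.CQ.Final
import Pool.Agent.H65.AF.Main

/-!
helper16 (MP_28250c_CQ): the lower bound for the counting principles.
-/

set_option autoImplicit false

namespace ACpFrege

theorem famS (p Q : ℕ) [Fact p.Prime] (hQ : 3 ≤ Q) (hc : Q.Coprime p) : FamS p Q := by
  have : NeZero Q := ⟨by omega⟩
  obtain ⟨M₀, hM₀⟩ := partC Q hQ
  refine ⟨max M₀ 1, fun M hM L _ hLM => ?_⟩
  obtain ⟨A, x, hW, hcard⟩ := hM₀ M (le_trans (le_max_left _ _) hM) (2 * L + 4) hLM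
  refine ACpB.partB p hQ hc (le_trans (le_max_right _ _) hM) (by omega : 2 * L + 3 ≤ 2 * L + 4) hW ?_
  convert hcard

theorem count_main (p q : ℕ) (hp : p.Prime) (hq : 1 ≤ q) (S : List (Rule p)) (hS : ∀ R ∈ S, R.Sound) (d : ℕ) :
    ∃ N₀ : ℕ, ∀ N ≥ N₀, p ^ q.factorization p ∣ N → ¬ q ∣ N →
      ∀ π : List (Fm p), Refutes S d (CountCNF q N) π → (2 : ℝ) ^ ((N : ℝ) ^ ((1 : ℝ) / (8000 * (d + 2)))) ≤ psize π := by
  have : Fact p.Prime := ⟨hp⟩
  exact count_all (fun Q hQ hc => famS p Q hQ hc) q hq S hS d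

end ACpFrege
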